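import Pool.Agent.N880.HD.Stm2
import Pool.Agent.N880.QF.Ms

set_option autoImplicit false

open Complex Filter Topology MeasureTheory Set

namespace Pool.Agent.N880.HD

open H385 (c0 primFam bt wt Rw WW IX primSet primFam_eq)
open Pool.Agent.N880.QF (PP mem_PP)

/-- the integers in a logarithmic block -/
lemma block_int {v ρ : ℝ} (hρ : 0 < ρ) (hρ1 : ρ ≤ 1) :
    ∃ M H : ℕ, (∀ n : ℕ, n ≤ M → (n : ℝ) < Real.exp (v - ρ)) ∧
      (∀ n : ℕ, (n : ℝ) ≤ Real.exp (v + ρ) → n ≤ M + H) ∧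
      (H : ℝ) ≤ 4 * ρ * Real.exp v + 1 := by
  have hx : 0 < Real.exp (v - ρ) := Real.exp_pos _
  have hc : 0 < ⌈Real.exp (v - ρ)⌉₊ := Nat.ceil_pos.2 hx
  have hxy : Real.exp (v - ρ) ≤ Real.exp (v + ρ) := Real.exp_le_exp.2 (by linarith)
  refine ⟨⌈Real.exp (v - ρ)⌉₊ - 1, ⌊Real.exp (v + ρ)⌋₊ - (⌈Real.exp (v - ρ)⌉₊ - 1), ?_, ?_, ?_⟩
  · intro n hn
    exact Nat.lt_ceil.1 (by omega)
  · intro n hn
    have := Nat.le_floor hn
    omega
  · have hMle : ⌈Real.exp (v - ρ)⌉₊ - 1 ≤ ⌊Real.exp (v + ρ)⌋₊ := by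
      apply Nat.le_floor
      have : ((⌈Real.exp (v - ρ)⌉₊ - 1 : ℕ) : ℝ) < Real.exp (v - ρ) := Nat.lt_ceil.1 (by omega)
      linarith
    rw [Nat.cast_sub hMle]
    have h1 : ((⌊Real.exp (v + ρ)⌋₊ : ℕ) : ℝ) ≤ Real.exp (v + ρ) := Nat.floor_le (Real.exp_pos _).le
    have h2 : Real.exp (v - ρ) - 1 ≤ ((⌈Real.exp (v - ρ)⌉₊ - 1 : ℕ) : ℝ) := by
      rw [Nat.cast_sub hc]
      have := Nat.le_ceil (Real.exp (v - ρ))
      push_cast
      linarith
    have h3 : Real.exp (v + ρ) - Real.exp (v - ρ) ≤ 4 * ρ * Real.exp v := by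
      have e1 : Real.exp (v + ρ) = Real.exp v * Real.exp ρ := Real.exp_add _ _
      have e2 : Real.exp (v - ρ) = Real.exp v * Real.exp (-ρ) := by
        rw [← Real.exp_add]; ring_nf
      have e3 : Real.exp ρ ≤ 1 + ρ + ρ ^ 2 := by
        have := Real.abs_exp_sub_one_sub_id_le (x := ρ) (by rw [abs_of_pos hρ]; exact hρ1)
        linarith [(abs_le.1 this).2]
      have e4 : 1 - ρ ≤ Real.exp (-ρ) := by
        have := Real.add_one_le_exp (-ρ)
        linarith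
      have hv := Real.exp_pos v
      rw [e1, e2]
      have e5 : Real.exp ρ - Real.exp (-ρ) ≤ 4 * ρ := by nlinarith
      calc Real.exp v * Real.exp ρ - Real.exp v * Real.exp (-ρ)
          = Real.exp v * (Real.exp ρ - Real.exp (-ρ)) := by ring
        _ ≤ Real.exp v * (4 * ρ) := mul_le_mul_of_nonneg_left e5 hv.le
        _ = _ := by ring
    linarith

/-- the block estimate for the main primes in a short logarithmic block -/
theorem block_est {e0 K ε : ℝ} {B : ℕ}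
    (hp : ∀ (X Y M H : ℕ) (b : ℕ → ℂ), 1 ≤ X → K * X ≤ Y → (H : ℝ) ≤ e0 * (X : ℝ) ^ 2 →
      (∀ n, b n ≠ 0 → n.Prime ∧ B < n) → (∀ n, n ≤ M → b n = 0) →
      primFam X Y (fun q χ => ‖∑ n ∈ Finset.Icc 1 (M + H), b n * χ (n : ZMod q)‖ ^ 2) ≤
        (1 + ε) * WW X Y * ∑ n ∈ Finset.Icc 1 (M + H), ‖b n‖ ^ 2)
    (X Y : ℕ) (hX : 1 ≤ X) (hXY : K * X ≤ Y) (e L u ρ : ℝ) (hρ : 0 < ρ) (hρ1 : ρ ≤ 1)
    (hε : 0 ≤ ε)
    (hlen : 12 * ρ * Real.exp (u + e * L) + 1 ≤ e0 * (X : ℝ) ^ 2)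
    (v : ℝ) (x : ℕ → ℂ) (hx : ∀ p : ℕ, ρ < |Real.log p - v| → x p = 0) :
    ∑ i ∈ primSet X Y, 1 / (i.1 : ℝ) ^ 2 *
        ‖∑ p ∈ PP B e L u, i.2 (p : ZMod i.1) * x p‖ ^ 2 ≤
      (1 + ε) * WW X Y * ∑ p ∈ PP B e L u, ‖x p‖ ^ 2 := by
  classical
  have hW0 : 0 ≤ WW X Y := H385.primFam_nonneg _ _ _ (fun _ _ => zero_le_one)
  by_cases hex : ∃ p0 ∈ PP B e L u, |Real.log p0 - v| ≤ ρ
  · obtain ⟨p0, hp0, hpv⟩ := hex
    obtain ⟨g1, g2, g3⟩ := mem_PP hp0
    have hv : v ≤ u + e * L + ρ := by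
      have h1 := (abs_le.1 hpv).1
      have h2 := (abs_le.1 g3).2
      linarith
    obtain ⟨M, H, h1, h2, h3⟩ := block_int (v := v) hρ hρ1
    set b : ℕ → ℂ := fun n => if n ∈ PP B e L u ∧ |Real.log n - v| ≤ ρ then x n else 0 with hb
    have hHlen : (H : ℝ) ≤ e0 * (X : ℝ) ^ 2 := by
      refine h3.trans (le_trans ?_ hlen)
      have e1 : Real.exp v ≤ 3 * Real.exp (u + e * L) := by
        calc Real.exp v ≤ Real.exp (u + e * L + 1) := Real.exp_le_exp.2 (by linarith)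
          _ = Real.exp (u + e * L) * Real.exp 1 := Real.exp_add _ _
          _ ≤ Real.exp (u + e * L) * 3 :=
            mul_le_mul_of_nonneg_left (by linarith [Real.exp_one_lt_d9]) (Real.exp_pos _).le
          _ = _ := by ring
      have := mul_le_mul_of_nonneg_left e1 (show 0 ≤ 4 * ρ by positivity)
      linarith
    have hbn : ∀ n, b n ≠ 0 → n ∈ PP B e L u ∧ |Real.log n - v| ≤ ρ := by
      intro n hn
      by_contra hcon
      exact hn (by simp only [hb]; rw [if_neg hcon])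
    have hmem : ∀ n, b n ≠ 0 → n ∈ Finset.Icc 1 (M + H) ∧ M < n := by
      intro n hn
      obtain ⟨k1, k2⟩ := hbn n hn
      obtain ⟨k3, k4, k5⟩ := mem_PP k1
      have hn0 : (0 : ℝ) < n := by exact_mod_cast k3.pos
      have k6 := abs_le.1 k2
      have k7 : Real.exp (v - ρ) ≤ n := by
        rw [← Real.le_log_iff_exp_le hn0]; linarith [k6.1]
      have k8 : (n : ℝ) ≤ Real.exp (v + ρ) := by
        rw [← Real.log_le_iff_le_exp hn0]; linarith [k6.2]
      refine ⟨Finset.mem_Icc.2 ⟨k3.pos, h2 n k8⟩, ?_⟩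
      by_contra hcon
      have := h1 n (by omega)
      linarith
    have h4 := hp X Y M H b hX hXY hHlen (fun n hn => by
        obtain ⟨k1, k2⟩ := hbn n hn
        obtain ⟨k3, k4, k5⟩ := mem_PP k1
        exact ⟨k3, k4⟩) (fun n hn => by
        by_contra hcon
        have := (hmem n hcon).2
        omega)
    -- compare sums
    have hsum : ∀ (f : ℕ → ℂ → ℂ), (∀ n, f n 0 = 0) → 
        ∑ p ∈ PP B e L u, f p (x p) = ∑ n ∈ Finset.Icc 1 (M + H), f n (b n) := by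
      intro f hf
      have e1 : ∑ p ∈ PP B e L u, f p (x p) = ∑ p ∈ PP B e L u, f p (b p) := by
        refine Finset.sum_congr rfl fun p hpp => ?_
        by_cases hc : |Real.log p - v| ≤ ρ
        · simp only [hb]; rw [if_pos ⟨hpp, hc⟩]
        · have hb0 : b p = 0 := by simp only [hb]; rw [if_neg (fun h => hc h.2)]
          rw [hb0, hx p (not_le.1 hc)]
      rw [e1]
      have e2 : ∑ p ∈ PP B e L u, f p (b p) =
          ∑ p ∈ PP B e L u ∪ Finset.Icc 1 (M + H), f p (b p) := by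
        refine Finset.sum_subset Finset.subset_union_left fun n _ hn => ?_
        have : b n = 0 := by
          by_contra hcon
          exact hn (hbn n hcon).1
        rw [this, hf]
      have e3 : ∑ n ∈ Finset.Icc 1 (M + H), f n (b n) =
          ∑ p ∈ PP B e L u ∪ Finset.Icc 1 (M + H), f p (b p) := by
        refine Finset.sum_subset Finset.subset_union_right fun n _ hn => ?_
        have : b n = 0 := by
          by_contra hcon
          exact hn (hmem n hcon).1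
        rw [this, hf]
      rw [e2, e3]
    have hsumR : ∑ p ∈ PP B e L u, ‖x p‖ ^ 2 = ∑ n ∈ Finset.Icc 1 (M + H), ‖b n‖ ^ 2 := by
      have := hsum (fun _ z => ((‖z‖ ^ 2 : ℝ) : ℂ)) (fun n => by simp)
      have h5 : ((∑ p ∈ PP B e L u, ‖x p‖ ^ 2 : ℝ) : ℂ) =
        ((∑ n ∈ Finset.Icc 1 (M + H), ‖b n‖ ^ 2 : ℝ) : ℂ) := by
        push_cast
        push_cast at this
        exact this
      exact_mod_cast h5
    rw [hsumR]
    rw [primFam_eq] at h4
    refine le_trans (le_of_eq (Finset.sum_congr rfl fun i _ => ?_)) h4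
    congr 3
    rw [hsum (fun n z => i.2 (n : ZMod i.1) * z) (fun n => by simp)]
    exact Finset.sum_congr rfl fun n _ => mul_comm _ _
  · push Not at hex
    have h1 : ∀ p ∈ PP B e L u, x p = 0 := fun p hpp => hx p (hex p hpp)
    have h2 : ∀ i : IX, ∑ p ∈ PP B e L u, i.2 (p : ZMod i.1) * x p = 0 :=
      fun i => Finset.sum_eq_zero fun p hpp => by rw [h1 p hpp, mul_zero]
    have h3 : ∑ i ∈ primSet X Y, 1 / (i.1 : ℝ) ^ 2 *
        ‖∑ p ∈ PP B e L u, i.2 (p : ZMod i.1) * x p‖ ^ 2 = 0 :=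
      Finset.sum_eq_zero fun i _ => by rw [h2 i]; simp
    rw [h3]
    exact mul_nonneg (mul_nonneg (by linarith) hW0) (Finset.sum_nonneg fun _ _ => by positivity)

end Pool.Agent.N880.HD
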