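import Pool.Agent.N880.HD.Stm
import Pool.Agent.H385R2.WinE

/-!
Project HD (helper880), leaf Const (helper953, after `Pool.Agent.Y762.Rw_cH`): the constant for
`h ≤ 2`.
-/

set_option autoImplicit false

namespace Pool.Agent.N880.HD

open H385 MeasureTheory

theorem const_Rw (h : ℝ) (h0 : 0 < h) (h1 : h ≤ 2) :
    1 / h * Rw (Real.sqrt 2 * h) 0 + 2 * h * ∫ α in (0 : ℝ)..1, α * Rw (Real.sqrt 2 * h) α =
      h / 2 + Real.cot (h / Real.sqrt 2) / Real.sqrt 2 := by
  have hs2 : Real.sqrt 2 ^ 2 = 2 := Real.sq_sqrt (by norm_num)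
  have hs0 : 0 < Real.sqrt 2 := Real.sqrt_pos.mpr (by norm_num)
  have hs1 : Real.sqrt 2 ≤ 1.5 := by
    rw [Real.sqrt_le_left (by norm_num)]; norm_num
  set γ : ℝ := Real.sqrt 2 * h with hγ
  have hγ0 : 0 < γ := by positivity
  rw [Rw_const_closed γ (1 / h) (2 * h) hγ0.ne']
  have hx : γ / 2 = h / Real.sqrt 2 := by
    rw [hγ]; field_simp; linarith
  have hxpos : 0 < h / Real.sqrt 2 := by positivity
  have hxle : h / Real.sqrt 2 ≤ 2 := by
    rw [div_le_iff₀ hs0]
    have : 1 ≤ Real.sqrt 2 := by rw [Real.one_le_sqrt]; norm_num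
    linarith
  set x : ℝ := h / Real.sqrt 2 with hxd
  have hsin : 0 < Real.sin x := Real.sin_pos_of_pos_of_lt_pi hxpos (by linarith [Real.pi_gt_three])
  have hγx : γ = 2 * x := by rw [← hx]; ring
  have hS : Real.sin γ = 2 * Real.sin x * Real.cos x := by rw [hγx, Real.sin_two_mul]
  have hC : Real.cos γ = 1 - 2 * Real.sin x ^ 2 := by
    rw [hγx, Real.cos_two_mul, Real.cos_sq']; ring
  rw [hx, hS, hC]
  rw [Real.cot_eq_cos_div_sin]
  set s := Real.sin x with hsd
  set c := Real.cos x with hcd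
  have hg2 : γ ^ 2 = 2 * h ^ 2 := by rw [hγ, mul_pow, hs2]
  have hg3 : γ ^ 3 = 2 * h ^ 2 * γ := by rw [pow_succ, hg2]
  rw [hg3, hg2]
  have hsq : Real.sqrt 2 = 2 * h / γ := by
    rw [hγ]; field_simp; linarith
  rw [hsq]
  field_simp
  linear_combination (2 * s ^ 2) * hg2

/-- **The sharp constant for `h ≤ 2`.** -/
theorem const_main : S_const := by
  intro h h0 h1
  have hs0 : 0 < Real.sqrt 2 := Real.sqrt_pos.mpr (by norm_num)
  have hs1 : Real.sqrt 2 ≤ 1.45 := by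
    rw [Real.sqrt_le_left (by norm_num)]; norm_num
  refine ⟨by positivity, ?_, const_Rw h h0 h1⟩
  have h2 : Real.sqrt 2 * h ≤ 1.45 * 2 := mul_le_mul hs1 h1 h0.le (by norm_num)
  have := Real.pi_gt_three
  linarith

end Pool.Agent.N880.HD
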