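import Pool.Agent.N880.HD.Stm

/-!
HD/Cop: terms with a common factor (helper701)
-/

set_option autoImplicit false

namespace Pool.Agent.N880.HD

open Finset

theorem cop_log (m n : ℕ) (hm : 1 ≤ m) (hmn : m ≤ n) :
    ∑ k ∈ Finset.Ioc m n, 1 / (k : ℝ) ≤ Real.log n - Real.log m := by
  induction n, hmn using Nat.le_induction with
  | base => simp
  | succ n hmn ih =>
    rw [Finset.sum_Ioc_succ_top hmn]
    have hn : (0 : ℝ) < n := by exact_mod_cast (by omega : 0 < n)
    have h1 := Real.log_le_sub_one_of_pos (show (0 : ℝ) < n / ((n + 1 : ℕ) : ℝ) by positivity)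
    rw [Real.log_div hn.ne' (by positivity)] at h1
    have h2 : (n : ℝ) / ((n + 1 : ℕ) : ℝ) - 1 = -(1 / ((n + 1 : ℕ) : ℝ)) := by
      push_cast
      field_simp
      ring
    rw [h2] at h1
    linarith

theorem cop_S (d X Z : ℕ) (hd : 1 ≤ d) (hX : 1 ≤ X) (hXZ : X ≤ Z) :
    ∑ q ∈ (Finset.Ioc X Z).filter (fun q => d ∣ q), 1 / (q : ℝ) ≤
      1 / (d : ℝ) * (1 + Real.log ((Z : ℝ) / X)) := by
  classical
  have hd0 : (0 : ℝ) < d := by exact_mod_cast hd
  have hX0 : (0 : ℝ) < X := by exact_mod_cast hX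
  have hXZ' : (X : ℝ) ≤ Z := by exact_mod_cast hXZ
  have hZ0 : (0 : ℝ) < Z := by linarith
  have h1 : (Finset.Ioc X Z).filter (fun q => d ∣ q) ⊆
      (Finset.Ioc (X / d) (Z / d)).image (fun k => d * k) := by
    intro q hq
    rw [Finset.mem_filter, Finset.mem_Ioc] at hq
    obtain ⟨⟨h2, h3⟩, k, rfl⟩ := hq
    rw [Finset.mem_image]
    refine ⟨k, ?_, rfl⟩
    rw [Finset.mem_Ioc]
    refine ⟨?_, ?_⟩
    · rw [Nat.div_lt_iff_lt_mul hd, mul_comm]
      exact h2
    · rw [Nat.le_div_iff_mul_le hd, mul_comm]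
      exact h3
  have h2 : ∑ q ∈ (Finset.Ioc X Z).filter (fun q => d ∣ q), 1 / (q : ℝ) ≤
      1 / (d : ℝ) * ∑ k ∈ Finset.Ioc (X / d) (Z / d), 1 / (k : ℝ) := by
    refine (Finset.sum_le_sum_of_subset_of_nonneg h1 fun _ _ _ => by positivity).trans ?_
    rw [Finset.sum_image (fun a _ b _ h => Nat.eq_of_mul_eq_mul_left hd h), Finset.mul_sum]
    refine le_of_eq (Finset.sum_congr rfl fun k _ => ?_)
    push_cast
    rw [one_div_mul_one_div]
  refine h2.trans (mul_le_mul_of_nonneg_left ?_ (by positivity))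
  have hlog : 0 ≤ Real.log ((Z : ℝ) / X) := Real.log_nonneg (by rw [le_div_iff₀ hX0]; linarith)
  rcases Nat.lt_or_ge (X / d) (Z / d) with h3 | h3
  · have h4 : Finset.Ioc (X / d) (Z / d) = insert (X / d + 1) (Finset.Ioc (X / d + 1) (Z / d)) := by
      ext k
      simp only [Finset.mem_Ioc, Finset.mem_insert]
      omega
    rw [h4, Finset.sum_insert (by simp)]
    have h5 := cop_log (X / d + 1) (Z / d) (Nat.le_add_left 1 _) h3
    have h6 : (1 : ℝ) / ((X / d + 1 : ℕ) : ℝ) ≤ 1 := by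
      rw [div_le_one (by positivity)]
      exact_mod_cast Nat.le_add_left 1 _
    have h7 : Real.log ((Z / d : ℕ) : ℝ) ≤ Real.log ((Z : ℝ) / d) := by
      have h8 : 0 < Z / d := lt_of_le_of_lt (Nat.zero_le _) h3
      exact Real.log_le_log (by exact_mod_cast h8) Nat.cast_div_le
    have h9 : Real.log ((X : ℝ) / d) ≤ Real.log ((X / d + 1 : ℕ) : ℝ) := by
      refine Real.log_le_log (by positivity) ?_
      rw [div_le_iff₀ hd0]
      have h10 : X < (X / d + 1) * d := by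
        have := Nat.lt_div_mul_add (a := X) (b := d) hd
        rw [Nat.add_mul, one_mul]
        exact this
      exact_mod_cast h10.le
    rw [Real.log_div hZ0.ne' hd0.ne'] at h7
    rw [Real.log_div hX0.ne' hd0.ne'] at h9
    rw [Real.log_div hZ0.ne' hX0.ne']
    linarith
  · rw [Finset.Ioc_eq_empty (by omega), Finset.sum_empty]
    linarith

theorem cop_main : S_cop := by
  intro B X Z N b hB hX hXZ hb0 hb
  classical
  obtain ⟨Λ, hΛ⟩ : ∃ Λ : ℝ, Λ = 1 + Real.log ((Z : ℝ) / X) := ⟨_, rfl⟩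
  have hX0 : (0 : ℝ) < X := by exact_mod_cast hX
  have hXZ' : (X : ℝ) ≤ Z := by exact_mod_cast hXZ
  have hB0 : (0 : ℝ) < B := by exact_mod_cast hB
  have hΛ0 : 0 ≤ Λ := by
    rw [hΛ]
    have : 0 ≤ Real.log ((Z : ℝ) / X) := Real.log_nonneg (by rw [le_div_iff₀ hX0]; linarith)
    linarith
  rw [← hΛ]
  have h1 : ∀ q : ℕ, ∑ n ∈ (Finset.Icc 1 N).filter (fun n => ¬ Nat.Coprime n q), b n =
      ∑ n ∈ Finset.Icc 1 N, if n ∣ q then b n else 0 := by
    intro q
    rw [Finset.sum_filter]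
    refine Finset.sum_congr rfl fun n _ => ?_
    by_cases h0 : b n = 0
    · rw [h0, ite_self, ite_self]
    · have hp := (hb n h0).1
      have h2 : ¬ Nat.Coprime n q ↔ n ∣ q := by
        rw [hp.coprime_iff_not_dvd, not_not]
      simp only [h2]
  have h2 : ∑ q ∈ Finset.Ioc X Z, (1 / (q : ℝ)) *
      (∑ n ∈ (Finset.Icc 1 N).filter (fun n => ¬ Nat.Coprime n q), b n) ^ 2 =
      ∑ n ∈ Finset.Icc 1 N, ∑ m ∈ Finset.Icc 1 N, b n * b m *
        ∑ q ∈ (Finset.Ioc X Z).filter (fun q => n ∣ q ∧ m ∣ q), 1 / (q : ℝ) := by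
    have h3 : ∀ q ∈ Finset.Ioc X Z, (1 / (q : ℝ)) *
      (∑ n ∈ (Finset.Icc 1 N).filter (fun n => ¬ Nat.Coprime n q), b n) ^ 2 =
      ∑ n ∈ Finset.Icc 1 N, ∑ m ∈ Finset.Icc 1 N, b n * b m *
        (if n ∣ q ∧ m ∣ q then 1 / (q : ℝ) else 0) := by
      intro q _
      rw [h1, sq, Finset.sum_mul_sum, Finset.mul_sum]
      refine Finset.sum_congr rfl fun n _ => ?_
      rw [Finset.mul_sum]
      refine Finset.sum_congr rfl fun m _ => ?_
      by_cases hn : n ∣ q
      · by_cases hm : m ∣ q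
        · rw [if_pos hn, if_pos hm, if_pos ⟨hn, hm⟩]
          ring
        · rw [if_neg hm, if_neg (fun h : n ∣ q ∧ m ∣ q => hm h.2)]
          ring
      · rw [if_neg hn, if_neg (fun h : n ∣ q ∧ m ∣ q => hn h.1)]
        ring
    rw [Finset.sum_congr rfl h3, Finset.sum_comm]
    refine Finset.sum_congr rfl fun n _ => ?_
    rw [Finset.sum_comm]
    refine Finset.sum_congr rfl fun m _ => ?_
    rw [← Finset.mul_sum, Finset.sum_filter]
  rw [h2]
  have h4 : ∀ n ∈ Finset.Icc 1 N, ∀ m ∈ Finset.Icc 1 N, b n * b m *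
        ∑ q ∈ (Finset.Ioc X Z).filter (fun q => n ∣ q ∧ m ∣ q), 1 / (q : ℝ) ≤
      Λ * ((b n / n) * (b m / m)) + Λ * (if n = m then b n ^ 2 / B else 0) := by
    intro n hn m hm
    have hn1 := (Finset.mem_Icc.1 hn).1
    have hm1 := (Finset.mem_Icc.1 hm).1
    have hn0 : (0 : ℝ) < n := by exact_mod_cast hn1
    have hm0 : (0 : ℝ) < m := by exact_mod_cast hm1
    have hbn := hb0 n
    have hbm := hb0 m
    by_cases hbz : b n = 0
    · rw [hbz]
      have : (0 : ℝ) ≤ (if n = m then (0 : ℝ) ^ 2 / B else 0) := by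
        split_ifs
        · positivity
        · exact le_rfl
      have h5 := mul_nonneg hΛ0 this
      simp only [zero_mul, zero_div, mul_zero, zero_add]
      exact h5
    by_cases hbz' : b m = 0
    · rw [hbz']
      have : (0 : ℝ) ≤ (if n = m then b n ^ 2 / B else 0) := by
        split_ifs
        · positivity
        · exact le_rfl
      have h5 := mul_nonneg hΛ0 this
      simp only [mul_zero, zero_mul, zero_div, zero_add]
      exact h5
    obtain ⟨hpn, hBn⟩ := hb n hbz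
    obtain ⟨hpm, hBm⟩ := hb m hbz'
    by_cases hnm : n = m
    · subst hnm
      rw [if_pos rfl]
      have h5 : (Finset.Ioc X Z).filter (fun q => n ∣ q ∧ n ∣ q) =
          (Finset.Ioc X Z).filter (fun q => n ∣ q) := by
        simp only [and_self]
      rw [h5]
      have h6 := cop_S n X Z hn1 hX hXZ
      rw [← hΛ] at h6
      have h7 : b n * b n * ∑ q ∈ (Finset.Ioc X Z).filter (fun q => n ∣ q), 1 / (q : ℝ) ≤
          b n * b n * (1 / (n : ℝ) * Λ) := mul_le_mul_of_nonneg_left h6 (by positivity)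
      have h8 : b n * b n * (1 / (n : ℝ) * Λ) ≤ Λ * (b n ^ 2 / B) := by
        have h9 : 1 / (n : ℝ) ≤ 1 / B := one_div_le_one_div_of_le hB0 (by exact_mod_cast hBn.le)
        calc b n * b n * (1 / (n : ℝ) * Λ) = (b n ^ 2 * Λ) * (1 / n) := by ring
          _ ≤ (b n ^ 2 * Λ) * (1 / B) := mul_le_mul_of_nonneg_left h9 (by positivity)
          _ = Λ * (b n ^ 2 / B) := by ring
      have h10 : 0 ≤ Λ * ((b n / n) * (b n / n)) := by positivity
      linarith
    · rw [if_neg hnm, mul_zero, add_zero]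
      have hcop : Nat.Coprime n m := (Nat.coprime_primes hpn hpm).2 hnm
      have h5 : (Finset.Ioc X Z).filter (fun q => n ∣ q ∧ m ∣ q) ⊆
          (Finset.Ioc X Z).filter (fun q => n * m ∣ q) := by
        intro q hq
        rw [Finset.mem_filter] at hq ⊢
        exact ⟨hq.1, hcop.mul_dvd_of_dvd_of_dvd hq.2.1 hq.2.2⟩
      have h6 := cop_S (n * m) X Z (Nat.mul_pos hn1 hm1) hX hXZ
      rw [← hΛ] at h6
      have h7 := (Finset.sum_le_sum_of_subset_of_nonneg (f := fun q : ℕ => 1 / (q : ℝ)) h5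
        fun _ _ _ => by positivity).trans h6
      calc b n * b m * ∑ q ∈ (Finset.Ioc X Z).filter (fun q => n ∣ q ∧ m ∣ q), 1 / (q : ℝ)
          ≤ b n * b m * (1 / ((n * m : ℕ) : ℝ) * Λ) :=
            mul_le_mul_of_nonneg_left h7 (by positivity)
        _ = Λ * ((b n / n) * (b m / m)) := by
            push_cast
            field_simp
  have h5 : ∑ n ∈ Finset.Icc 1 N, ∑ m ∈ Finset.Icc 1 N, b n * b m *
        ∑ q ∈ (Finset.Ioc X Z).filter (fun q => n ∣ q ∧ m ∣ q), 1 / (q : ℝ) ≤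
      Λ * (∑ n ∈ Finset.Icc 1 N, b n / n) ^ 2 + Λ * ((∑ n ∈ Finset.Icc 1 N, b n ^ 2) / B) := by
    refine (Finset.sum_le_sum fun n hn => Finset.sum_le_sum fun m hm => h4 n hn m hm).trans ?_
    apply le_of_eq
    rw [sq, Finset.sum_mul_sum, Finset.mul_sum, Finset.sum_div, Finset.mul_sum,
      ← Finset.sum_add_distrib]
    refine Finset.sum_congr rfl fun n hn => ?_
    rw [Finset.sum_add_distrib, ← Finset.mul_sum, ← Finset.mul_sum, ← Finset.mul_sum,
      Finset.sum_ite_eq, if_pos hn]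
  have h6 : (∑ n ∈ Finset.Icc 1 N, b n / n) ^ 2 ≤ (∑ n ∈ Finset.Icc 1 N, b n ^ 2) / B := by
    have h7 : ∑ n ∈ Finset.Icc 1 N, b n / n =
        ∑ n ∈ Finset.Icc 1 N, b n * (if B < n then 1 / (n : ℝ) else 0) := by
      refine Finset.sum_congr rfl fun n _ => ?_
      by_cases h0 : b n = 0
      · rw [h0, zero_div, zero_mul]
      · rw [if_pos (hb n h0).2]
        ring
    have h8 := Finset.sum_mul_sq_le_sq_mul_sq (Finset.Icc 1 N) b
      (fun n : ℕ => if B < n then 1 / (n : ℝ) else 0)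
    rw [h7]
    refine h8.trans ?_
    rw [div_eq_mul_one_div]
    refine mul_le_mul_of_nonneg_left ?_ (Finset.sum_nonneg fun _ _ => sq_nonneg _)
    calc ∑ n ∈ Finset.Icc 1 N, (if B < n then 1 / (n : ℝ) else 0) ^ 2
        = ∑ n ∈ (Finset.Icc 1 N).filter (fun n => B < n), ((n : ℝ) ^ 2)⁻¹ := by
          rw [Finset.sum_filter]
          refine Finset.sum_congr rfl fun n _ => ?_
          split_ifs
          · rw [one_div, inv_pow]
          · simp
      _ ≤ ∑ n ∈ Finset.Ioc B (B + N), ((n : ℝ) ^ 2)⁻¹ := by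
          refine Finset.sum_le_sum_of_subset_of_nonneg ?_ fun _ _ _ => by positivity
          intro n hn
          rw [Finset.mem_filter, Finset.mem_Icc] at hn
          rw [Finset.mem_Ioc]
          omega
      _ ≤ (B : ℝ)⁻¹ - ((B + N : ℕ) : ℝ)⁻¹ :=
          sum_Ioc_inv_sq_le_sub (by omega) (by omega)
      _ ≤ 1 / (B : ℝ) := by
          have : (0 : ℝ) ≤ ((B + N : ℕ) : ℝ)⁻¹ := by positivity
          rw [one_div]
          linarith
  refine h5.trans ?_
  have h9 := mul_le_mul_of_nonneg_left h6 hΛ0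
  calc Λ * (∑ n ∈ Finset.Icc 1 N, b n / n) ^ 2 + Λ * ((∑ n ∈ Finset.Icc 1 N, b n ^ 2) / B)
      ≤ Λ * ((∑ n ∈ Finset.Icc 1 N, b n ^ 2) / B) + Λ * ((∑ n ∈ Finset.Icc 1 N, b n ^ 2) / B) := by
        linarith
    _ = 2 / (B : ℝ) * Λ * ∑ n ∈ Finset.Icc 1 N, b n ^ 2 := by ring

end Pool.Agent.N880.HD
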