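import Pool.Agent.N880.HD.Stm2
import Pool.Agent.N880.QF.Core
import Pool.Agent.H385R2.FinA

/-! # From the mean square to the proportion -/

set_option autoImplicit false

open Complex Filter Topology MeasureTheory Set

namespace Pool.Agent.N880.HD

open H385 (c0 primFam bt wt Rw WW IX primSet primFam_eq mem_primSet LF LF_eq Rw_nonneg)
open H370 (NN Nd Ns)
open Pool.Agent.N7.MainC (inner inner_continuous inner_nonneg inner_le)
open Pool.Agent.N880.QF (Y_int1)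

/-- choice of the small parameter -/
lemma choose_s {R J h κ0 : ℝ} (hh : 0 < h) (hk : R / h + 2 * h * J < κ0) :
    ∃ s : ℝ, 0 < s ∧ s ≤ 1 / 2 ∧
      R / ((1 - s) * h) + 2 * ((1 - s) * h) * (1 + s) * (J + s) + s < κ0 := by
  have hc : ContinuousAt (fun s : ℝ =>
      R / ((1 - s) * h) + 2 * ((1 - s) * h) * (1 + s) * (J + s) + s) 0 := by
    apply ContinuousAt.add
    · apply ContinuousAt.add
      · apply ContinuousAt.div continuousAt_const (by fun_prop)
        simp only [sub_zero, one_mul]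
        exact hh.ne'
      · fun_prop
    · fun_prop
  have h0 : (fun s : ℝ =>
      R / ((1 - s) * h) + 2 * ((1 - s) * h) * (1 + s) * (J + s) + s) 0 < κ0 := by
    simp only [sub_zero, one_mul, add_zero, mul_one]
    exact hk
  have h1 := hc.eventually_lt_const h0
  rw [Metric.eventually_nhds_iff] at h1
  obtain ⟨ε, hε, h2⟩ := h1
  refine ⟨min (1 / 2) (ε / 2), by positivity, min_le_left _ _, h2 ?_⟩
  rw [Real.dist_eq, sub_zero, abs_of_pos (by positivity)]
  have := min_le_right (1 / 2) (ε / 2)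
  linarith

/-- `(log (X T))² ≤ T` -/
lemma sq_log_le : ∃ l0 : ℝ, ∀ lX T : ℝ, l0 ≤ lX → 4 * lX ^ 2 ≤ T → (lX + Real.log T) ^ 2 ≤ T := by
  have h1 : ∀ᶠ r : ℝ in atTop, ‖Real.log r‖ ≤ 1 / 4 * ‖id r‖ :=
    Real.isLittleO_log_id_atTop.bound (by norm_num)
  obtain ⟨r0, hr0⟩ := Filter.eventually_atTop.1 h1
  refine ⟨max r0 1, fun lX T hl hT => ?_⟩
  have hl1 : 1 ≤ lX := (le_max_right _ _).trans hl
  have hlr : r0 ≤ lX := (le_max_left _ _).trans hl
  have hT0 : 0 < T := by nlinarith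
  have hr : 2 * lX ≤ Real.sqrt T := by
    apply Real.le_sqrt_of_sq_le
    linarith [show (2 * lX) ^ 2 = 4 * lX ^ 2 by ring]
  have hrr := Real.sq_sqrt hT0.le
  have hr0' : 0 < Real.sqrt T := by linarith
  have h2 := hr0 (Real.sqrt T) (by linarith)
  simp only [id, Real.norm_eq_abs] at h2
  rw [abs_of_pos hr0'] at h2
  have h3 : Real.log T = 2 * Real.log (Real.sqrt T) := by
    rw [Real.log_sqrt hT0.le]; ring
  have h4 := le_abs_self (Real.log (Real.sqrt T))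
  have hTT : 1 ≤ T := by nlinarith
  have h5 : 0 ≤ lX + Real.log T := by
    have := Real.log_nonneg hTT
    linarith
  have h6 : lX + Real.log T ≤ Real.sqrt T := by linarith
  calc (lX + Real.log T) ^ 2 ≤ (Real.sqrt T) ^ 2 := pow_le_pow_left₀ h5 h6 2
    _ = T := hrr

/-- the two parts of the mean square -/
lemma ms_parts {T L W β s J R CM ε1 : ℝ} (hs : 0 < s) (hL : 1 ≤ L) (hT : 1 ≤ T) (hβ : 0 < β)
    (hW : 0 ≤ W) (hJ : 0 ≤ J) (hR : 0 ≤ R) (hCM : 0 < CM)
    (hbig : 4 * Real.pi * CM * R / ε1 ≤ L) (hε1 : 0 < ε1) :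
    (2 / (Real.sqrt Real.pi * (β * L))) * (((1 + s) * W * (T / (2 * Real.pi))) *
        (Real.sqrt Real.pi * (β * L) ^ 2 * (J + s)) + (CM * W) * (R * (β * L) * (T + 0 * ((β * L) + 1)))) ≤
      T / (2 * Real.pi) * L * W * (2 * β * (1 + s) * (J + s) + ε1) := by
  have hpi := Real.pi_pos
  have hsq : 0 < Real.sqrt Real.pi := Real.sqrt_pos.2 hpi
  have hsq1 : 1 ≤ Real.sqrt Real.pi := Real.one_le_sqrt.2 (by linarith [Real.pi_gt_three])
  have hT0 : 0 < T := by linarith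
  have hL0 : 0 < L := by linarith
  have e1 : (2 / (Real.sqrt Real.pi * (β * L))) * (((1 + s) * W * (T / (2 * Real.pi))) *
        (Real.sqrt Real.pi * (β * L) ^ 2 * (J + s)) + (CM * W) * (R * (β * L) * (T + 0 * ((β * L) + 1)))) =
      T / (2 * Real.pi) * L * W * (2 * β * (1 + s) * (J + s)) +
        (2 / Real.sqrt Real.pi) * (CM * W * R * T) := by
    field_simp
    ring
  have h3 : 2 / Real.sqrt Real.pi ≤ 2 := div_le_self (by norm_num) hsq1
  have h4 : (2 / Real.sqrt Real.pi) * (CM * W * R * T) ≤ 2 * (CM * W * R * T) :=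
    mul_le_mul_of_nonneg_right h3 (by positivity)
  have h5 : 2 * (CM * W * R * T) ≤ T / (2 * Real.pi) * L * W * ε1 := by
    rw [div_le_iff₀ hε1] at hbig
    have a1 : 2 * (CM * W * R * T) = (4 * Real.pi * CM * R) * (T * W / (2 * Real.pi)) := by
      field_simp; ring
    have a2 : T / (2 * Real.pi) * L * W * ε1 = (L * ε1) * (T * W / (2 * Real.pi)) := by
      field_simp
    rw [a1, a2]
    exact mul_le_mul_of_nonneg_right hbig (by positivity)
  rw [e1]
  calc _ ≤ T / (2 * Real.pi) * L * W * (2 * β * (1 + s) * (J + s)) +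
        T / (2 * Real.pi) * L * W * ε1 := by linarith
    _ = _ := by ring

set_option maxHeartbeats 4000000 in
theorem core_main (hms : S_ms) (τ γ κ0 : ℝ) (hτ : 0 ≤ τ) (h0 : 0 < γ) (hπ : γ < Real.pi)
    (hκ0 : Rw γ 0 / ((2 + τ) / (1 + τ)) + 2 * ((2 + τ) / (1 + τ)) *
      (∫ α in (0 : ℝ)..1, α * Rw γ α) < κ0) :
    ∃ K η X0 : ℝ, 1 ≤ K ∧ 0 < η ∧ 1 ≤ X0 ∧
    ∀ (X Y : ℕ) (T : ℝ), X0 ≤ X → K * X ≤ Y → (Y : ℝ) ≤ (X : ℝ) ^ (1 + η) →
      4 * (Real.log X) ^ 2 ≤ T → T ≤ (X : ℝ) ^ τ →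
      primFam X Y (fun q χ => 2 * (NN (LF q χ) T (2 * T) : ℝ) - (Ns (LF q χ) T (2 * T) : ℝ)) ≤
        κ0 * primFam X Y (fun q χ => (NN (LF q χ) T (2 * T) : ℝ)) ∧
      primFam X Y (fun q χ => 3 * (NN (LF q χ) T (2 * T) : ℝ) - 2 * (Nd (LF q χ) T (2 * T) : ℝ)) ≤
        κ0 * primFam X Y (fun q χ => (NN (LF q χ) T (2 * T) : ℝ)) := by
  have hpi := Real.pi_pos
  have hpi3 := Real.pi_gt_three
  obtain ⟨A, hA, hgood⟩ := H385.good_dirichlet_U
  obtain ⟨C1, hC1, hfam⟩ := H385.fam_abstract γ h0 hπ A hA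
  obtain ⟨C1', hC1', hfam'⟩ := H385.fam_abstract_d γ h0 hπ A hA
  obtain ⟨C2, hC2, hlow⟩ := H385.N_lower A hA
  obtain ⟨Ci, hCi, hinner⟩ := inner_le 1 le_rfl
  obtain ⟨R, hRdef⟩ : ∃ R, R = Rw γ 0 := ⟨_, rfl⟩
  obtain ⟨J, hJdef⟩ : ∃ J, J = ∫ α in (0:ℝ)..1, α * Rw γ α := ⟨_, rfl⟩
  obtain ⟨h, hhdef⟩ : ∃ h, h = (2 + τ) / (1 + τ) := ⟨_, rfl⟩
  rw [← hRdef, ← hJdef, ← hhdef] at hκ0
  have hh1 : 1 ≤ h := by
    rw [hhdef, le_div_iff₀ (by linarith)]; linarith
  have hh0 : 0 < h := by linarith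
  have hR : 0 ≤ R := hRdef ▸ Rw_nonneg γ h0 hπ 0
  have hJ : 0 ≤ J := by
    rw [hJdef]
    apply intervalIntegral.integral_nonneg zero_le_one
    intro α hα
    exact mul_nonneg hα.1 (Rw_nonneg γ h0 hπ α)
  obtain ⟨s, hs, hs1, hsκ⟩ := choose_s hh0 hκ0
  obtain ⟨LY, hLY, hYint⟩ := Y_int1 γ h0 hπ hs
  obtain ⟨β, hβdef⟩ : ∃ β, β = (1 - s) * h := ⟨_, rfl⟩
  obtain ⟨c', hc'def⟩ : ∃ c', c' = 2 * β * (1 + s) * (J + s) := ⟨_, rfl⟩
  rw [← hβdef, ← hc'def] at hsκ
  have hβ : 0 < β := by rw [hβdef]; exact mul_pos (by linarith) hh0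
  have hc' : 0 ≤ c' := by rw [hc'def]; positivity
  obtain ⟨CC, hCC0, hCCa, hCCb⟩ : ∃ CC, 0 < CC ∧ C1 ≤ CC ∧ C1' ≤ CC :=
    ⟨max C1 C1', lt_max_of_lt_left hC1, le_max_left _ _, le_max_right _ _⟩
  obtain ⟨ε1, hε1, hε1a, hε1b⟩ : ∃ ε1 : ℝ, 0 < ε1 ∧ ε1 ≤ s / 8 ∧
      6 * Real.pi * CC * ε1 / β ≤ s / 8 := by
    refine ⟨min (s / 8) (s / 8 * β / (6 * Real.pi * CC)), ?_, min_le_left _ _, ?_⟩
    · exact lt_min (by positivity) (by positivity)
    · have : 6 * Real.pi * CC * min (s / 8) (s / 8 * β / (6 * Real.pi * CC)) ≤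
          6 * Real.pi * CC * (s / 8 * β / (6 * Real.pi * CC)) := by
        gcongr; exact min_le_right _ _
      rw [div_le_iff₀ hβ]
      refine this.trans (le_of_eq ?_)
      field_simp
  obtain ⟨η, hη, hη1, hη2⟩ : ∃ η : ℝ, 0 < η ∧ η ≤ 1 ∧ 8 * η * (R / β) ≤ s / 8 := by
    have h2 : 0 ≤ R / β := by positivity
    refine ⟨min 1 (s / 64 / (R / β + 1)), lt_min (by positivity) (by positivity),
      min_le_left _ _, ?_⟩
    have h1 : min 1 (s / 64 / (R / β + 1)) ≤ s / 64 / (R / β + 1) := min_le_right _ _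
    have h3 : s / 64 / (R / β + 1) * (R / β) ≤ s / 64 := by
      rw [div_mul_eq_mul_div, div_le_iff₀ (by positivity)]
      exact mul_le_mul_of_nonneg_left (by linarith) (by positivity)
    have h4 : min 1 (s / 64 / (R / β + 1)) * (R / β) ≤
        s / 64 / (R / β + 1) * (R / β) := mul_le_mul_of_nonneg_right h1 h2
    linarith
  obtain ⟨K, CM, XM, hK, hCM, hXM, hmsb⟩ := hms τ s hτ hs hs1
  obtain ⟨l0, hl0⟩ := sq_log_le
  obtain ⟨L0, q1, q2, q3, q4, q5, q6, q7, q8⟩ : ∃ L0 : ℝ,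
      l0 ≤ L0 ∧ 4 * β + 8 ≤ L0 ∧ 1 / β ≤ L0 ∧ LY / β ≤ L0 ∧
      CC * (12 / β + 3) * (2 * Real.pi) ≤ s / 8 * L0 ∧
      10 * Real.pi * C2 * (R / β + c' + s) ≤ s / 2 * L0 ∧
      4 * Real.pi * CM * R / ε1 ≤ L0 ∧
      (Real.sqrt Ci + Real.sqrt CM) / ε1 ≤ L0 := by
    have a1 : 0 ≤ |l0| := abs_nonneg _
    have a1' : l0 ≤ |l0| := le_abs_self _
    have a2 : 0 ≤ 4 * β + 8 := by positivity
    have a3 : 0 ≤ 1 / β := by positivity
    have a4 : 0 ≤ LY / β := by positivity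
    have a5 : 0 ≤ CC * (12 / β + 3) * (2 * Real.pi) * (8 / s) := by positivity
    have a6 : 0 ≤ 10 * Real.pi * C2 * (R / β + c' + s) * (2 / s) := by positivity
    have a7 : 0 ≤ 4 * Real.pi * CM * R / ε1 := by positivity
    have a8 : 0 ≤ (Real.sqrt Ci + Real.sqrt CM) / ε1 := by positivity
    refine ⟨|l0| + (4 * β + 8) + 1 / β + LY / β +
      CC * (12 / β + 3) * (2 * Real.pi) * (8 / s) +
      10 * Real.pi * C2 * (R / β + c' + s) * (2 / s) +
      4 * Real.pi * CM * R / ε1 +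
      (Real.sqrt Ci + Real.sqrt CM) / ε1,
      by linarith, by linarith, by linarith, by linarith, ?_, ?_, by linarith, by linarith⟩
    · have e1 : CC * (12 / β + 3) * (2 * Real.pi) =
          s / 8 * (CC * (12 / β + 3) * (2 * Real.pi) * (8 / s)) := by field_simp
      rw [e1]
      refine mul_le_mul_of_nonneg_left ?_ (by positivity)
      rw [← e1]
      linarith
    · have e1 : 10 * Real.pi * C2 * (R / β + c' + s) =
          s / 2 * (10 * Real.pi * C2 * (R / β + c' + s) * (2 / s)) := by field_simp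
      rw [e1]
      refine mul_le_mul_of_nonneg_left ?_ (by positivity)
      rw [← e1]
      linarith
  refine ⟨K, η, max XM (Real.exp L0), hK, hη, by
    have := hXM.trans (le_max_left XM (Real.exp L0)); linarith, ?_⟩
  intro X Y T hX hKX hY hT1 hT2
  have hXXM : XM ≤ X := (le_max_left _ _).trans hX
  have hXe : Real.exp L0 ≤ X := (le_max_right _ _).trans hX
  have hX3 : (3 : ℝ) ≤ X := hXM.trans hXXM
  have hX1 : (1 : ℝ) ≤ X := by linarith
  have hXpos : (0 : ℝ) < X := by linarith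
  obtain ⟨lX, hlX⟩ : ∃ lX, lX = Real.log X := ⟨_, rfl⟩
  have hlX0 : L0 ≤ lX := by rw [hlX, Real.le_log_iff_exp_le hXpos]; exact hXe
  have hL08 : 8 ≤ L0 := by linarith
  rw [← hlX] at hT1
  have hTT : 1 ≤ T := by nlinarith
  have hTpos : 0 < T := by linarith
  have hlT0 : 0 ≤ Real.log T := Real.log_nonneg hTT
  obtain ⟨L, hL⟩ : ∃ L, L = Real.log (X * T) := ⟨_, rfl⟩
  have hLeq : L = lX + Real.log T := by rw [hL, Real.log_mul hXpos.ne' hTpos.ne', hlX]
  have hLL0 : L0 ≤ L := by linarith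
  have hTL : L ^ 2 ≤ T := by
    rw [hLeq]
    exact hl0 lX T (by linarith) hT1
  have hL8 : 8 ≤ L := by linarith
  have hL0 : 0 < L := by linarith
  have hT2' : T ≤ Real.exp (1 * L) := by
    rw [one_mul, hL, Real.exp_log (by positivity)]
    exact le_mul_of_one_le_left hTpos.le hX1
  have hXY : (X : ℝ) ≤ Y := by
    have : (1 : ℝ) * X ≤ K * X := mul_le_mul_of_nonneg_right hK hXpos.le
    linarith
  have hYpos : (0 : ℝ) < Y := by linarith
  have hYX2 : (Y : ℝ) ≤ (X : ℝ) ^ 2 := by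
    refine hY.trans ?_
    rw [← Real.rpow_natCast]
    exact Real.rpow_le_rpow_of_exponent_le hX1 (by push_cast; linarith)
  obtain ⟨p1, p2, p3, p4, p5, p6⟩ := H385.param_ok β L T 1 hβ le_rfl (q2.trans hLL0)
    (q3.trans hLL0) hTL hT2'
  have hYη : Real.log (Y * T) ≤ (1 + 2 * η) * L := by
    rw [Real.log_mul hYpos.ne' hTpos.ne']
    have h1 : Real.log Y ≤ (1 + η) * lX := by
      have := Real.log_le_log hYpos hY
      rwa [Real.log_rpow hXpos, ← hlX] at this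
    have h2 : (1 + η) * lX + Real.log T ≤ (1 + η) * L := by
      rw [hLeq]
      have := mul_nonneg hη.le hlT0
      linarith
    have h3 : 0 ≤ η * L := by positivity
    linarith
  have hdata : ∀ p ∈ primSet X Y, 0 ≤ (1 / (p.1 : ℝ) ^ 2) ∧ (1 : ℝ) ≤ (p.1 : ℝ) ∧
      H385.GoodU A (p.1 : ℝ) (LF p.1 p.2)
        (fun n => p.2 (n : ZMod p.1) * (ArithmeticFunction.vonMangoldt n : ℂ)) ∧
      Real.log ((p.1 : ℝ) * T) ≤ (1 + 2 * η) * L := by
    intro p hp
    obtain ⟨h1, h2, h3⟩ := (mem_primSet X Y p).mp hp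
    have hq : NeZero p.1 := ⟨by omega⟩
    refine ⟨by positivity, by exact_mod_cast (show 1 ≤ p.1 by omega), ?_, ?_⟩
    · rw [LF_eq]
      exact hgood p.1 p.2 h3
    · refine le_trans (Real.log_le_log ?_ ?_) hYη
      · have : (0 : ℝ) < (p.1 : ℝ) := by exact_mod_cast (show 0 < p.1 by omega)
        positivity
      · have : (p.1 : ℝ) ≤ Y := by exact_mod_cast h2
        exact mul_le_mul_of_nonneg_right this hTpos.le
  have hLm : (1 + 2 * η) * L ≤ 3 * L := mul_le_mul_of_nonneg_right (by linarith) (by linarith)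
  have hLm1 : 1 ≤ (1 + 2 * η) * L :=
    le_trans (by linarith : 1 ≤ L) (le_mul_of_one_le_left (by linarith) (by linarith))
  have hLm0 : 0 ≤ (1 + 2 * η) * L := by linarith
  have hLm2 : ((1 + 2 * η) * L) ^ 2 ≤ 9 * L ^ 2 := by
    have h0 : ((1 + 2 * η) * L) ^ 2 ≤ (3 * L) ^ 2 := pow_le_pow_left₀ hLm0 hLm 2
    linarith [show (3 * L) ^ 2 = 9 * L ^ 2 by ring]
  obtain ⟨W, hWd⟩ : ∃ W, W = WW X Y := ⟨_, rfl⟩
  have hW0 : 0 ≤ W := hWd ▸ H385.primFam_nonneg _ _ _ (fun _ _ => zero_le_one)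
  have hW : ∑ p ∈ primSet X Y, (1 / (p.1 : ℝ) ^ 2) = W := by
    rw [hWd]; unfold WW; rw [primFam_eq]; simp
  obtain ⟨Yf, hYf⟩ : ∃ Yf : ℝ → ℝ, Yf = fun u => (1 + s) * W * (T / (2 * Real.pi)) *
      inner 1 u + (CM * W) * (T + 0 * (u + 1)) := ⟨_, rfl⟩
  have hms' : ∀ u ∈ Set.Icc 0 (β * L),
        ∫ t : ℝ, ∑ p ∈ primSet X Y, (1 / (p.1 : ℝ) ^ 2) *
          ‖∑' n : ℕ, (p.2 (n : ZMod p.1) * (ArithmeticFunction.vonMangoldt n : ℂ)) *
            ((Real.sqrt n : ℂ)⁻¹ * bt T u t (Real.log n))‖ ^ 2 ≤ Yf u := by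
    intro u hu
    have h1 := hmsb X Y T u hXXM hKX hYX2 hTT (by rw [← hL]; exact hTL) hT2 hu.1
      (by rw [← hL, ← hhdef, ← hβdef]; exact hu.2)
    rw [hYf]
    refine le_trans (le_of_eq ?_) (h1.trans (le_of_eq ?_))
    · congr 1
      funext t
      rw [primFam_eq]
    · rw [hWd]; ring
  have hbd : ∀ u ∈ Set.Icc 0 (β * L), Yf u ≤ T * ((W * Ci) * (u + 1) + W * CM) := by
    intro u hu
    rw [hYf]
    have hu0 : 0 ≤ u := hu.1
    have h1 := hinner u hu0
    have h2 : (1 + s) * W * (T / (2 * Real.pi)) * inner 1 u ≤ (W * T) * (Ci * (u + 1)) := by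
      have e1 : (1 + s) * W * (T / (2 * Real.pi)) = (W * T) * ((1 + s) / (2 * Real.pi)) := by
        field_simp
      rw [e1]
      have e2 : (1 + s) / (2 * Real.pi) ≤ 1 := by
        rw [div_le_one (by positivity)]; linarith
      have e3 : (W * T) * ((1 + s) / (2 * Real.pi)) ≤ W * T :=
        mul_le_of_le_one_right (by positivity) e2
      exact mul_le_mul e3 h1 (inner_nonneg 1 u) (by positivity)
    have h5 : T * ((W * Ci) * (u + 1) + W * CM) =
      (W * T) * (Ci * (u + 1)) + (CM * W) * (T + 0 * (u + 1)) := by ring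
    rw [h5]
    exact add_le_add h2 le_rfl
  have hYi : IntervalIntegrable Yf volume 0 (β * L) := by
    have hc2 : Continuous (inner 1) := inner_continuous one_pos
    rw [hYf]
    exact Continuous.intervalIntegrable (by fun_prop) _ _
  have hy1 : 0 ≤ W * Ci := by positivity
  have hy2 : 0 ≤ W * CM := by positivity
  have hexp : ((1 + 2 * η) * L) ^ 2 * Real.exp (β * L - L ^ 2 / 2) ≤ Real.exp (-(β * L)) :=
    le_trans (mul_le_mul_of_nonneg_right hLm2 (Real.exp_pos _).le) p5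
  have k1 := hfam (primSet X Y) (fun p => 1 / (p.1 : ℝ) ^ 2) (fun p => (p.1 : ℝ))
    (fun p => LF p.1 p.2) (fun p n => p.2 (n : ZMod p.1) * (ArithmeticFunction.vonMangoldt n : ℂ))
    T L (β * L) ((1 + 2 * η) * L) (W * Ci) (W * CM) Yf hdata p1 p2 p3 p4 hLm1 hexp hy1 hy2
    hms' hbd hYi
  have k2 := hfam' (primSet X Y) (fun p => 1 / (p.1 : ℝ) ^ 2) (fun p => (p.1 : ℝ))
    (fun p => LF p.1 p.2) (fun p n => p.2 (n : ZMod p.1) * (ArithmeticFunction.vonMangoldt n : ℂ))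
    T L (β * L) ((1 + 2 * η) * L) (W * Ci) (W * CM) Yf hdata p1 p2 p3 p4 hLm1 hexp hy1 hy2
    hms' hbd hYi
  -- lower bound for the number of zeros
  have hN : W * (T / (2 * Real.pi) * L - 5 * C2 * T) ≤
      primFam X Y (fun q χ => (NN (LF q χ) T (2 * T) : ℝ)) := by
    have : W * (T / (2 * Real.pi) * L - 5 * C2 * T) =
        primFam X Y (fun _ _ => T / (2 * Real.pi) * L - 5 * C2 * T) := by
      rw [primFam_eq, ← hW, Finset.sum_mul]
    rw [this]
    refine H385.primFam_mono _ _ _ _ (fun q χ hq1 hq2 hχ => ?_)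
    have hq : NeZero q := ⟨by omega⟩
    have hqX : (X : ℝ) ≤ q := by exact_mod_cast hq1.le
    have hqY : (q : ℝ) ≤ Y := by exact_mod_cast hq2
    have hq0 : (0 : ℝ) < q := by linarith
    have hl := hlow q (LF q χ) _ (by linarith) (by rw [LF_eq]; exact hgood q χ hχ) T L p1 p2
    have hlog1 : L ≤ Real.log (q * T) := by
      rw [hL]
      exact Real.log_le_log (by positivity) (mul_le_mul_of_nonneg_right hqX hTpos.le)
    have hlog2 : Real.log (q * T) ≤ 3 * L := by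
      refine le_trans ?_ hLm
      refine le_trans (Real.log_le_log (by positivity) ?_) hYη
      exact mul_le_mul_of_nonneg_right hqY hTpos.le
    refine le_trans ?_ hl
    have a1 : T / (2 * Real.pi) * L ≤ T / (2 * Real.pi) * Real.log (q * T) :=
      mul_le_mul_of_nonneg_left hlog1 (by positivity)
    have a2 : L * Real.log (q * T) ≤ 3 * T := by
      have : L * Real.log (q * T) ≤ L * (3 * L) := mul_le_mul_of_nonneg_left hlog2 (by linarith)
      linarith [show L * (3 * L) = 3 * L ^ 2 by ring]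
    have a3 : T * Real.log (q * T) ^ 2 * Real.exp (-L ^ 2 / 2) ≤ T := by
      have b1 : Real.log (q * T) ^ 2 ≤ (3 * L) ^ 2 := pow_le_pow_left₀ (by linarith) hlog2 2
      have b2 : Real.log (q * T) ^ 2 * Real.exp (-L ^ 2 / 2) ≤ 1 := by
        refine le_trans (mul_le_mul_of_nonneg_right b1 (Real.exp_pos _).le) ?_
        rw [show (3 * L) ^ 2 = 9 * L ^ 2 by ring]; exact p6
      calc _ = T * (Real.log (q * T) ^ 2 * Real.exp (-L ^ 2 / 2)) := by ring
        _ ≤ T * 1 := mul_le_mul_of_nonneg_left b2 hTpos.le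
        _ = T := mul_one T
    have a4 : C2 * (T + L * Real.log (q * T) + T * Real.log (q * T) ^ 2 * Real.exp (-L ^ 2 / 2)) ≤
        C2 * (5 * T) := mul_le_mul_of_nonneg_left (by linarith) hC2.le
    linarith
  obtain ⟨SN, hSN⟩ : ∃ SN, SN = primFam X Y (fun q χ => (NN (LF q χ) T (2 * T) : ℝ)) := ⟨_, rfl⟩
  have hSN0 : 0 ≤ SN := hSN ▸ H385.primFam_nonneg _ _ _ (fun _ _ => Nat.cast_nonneg _)
  rw [← hSN] at hN ⊢
  have hs8L : s / 8 * L0 ≤ s / 8 * L := mul_le_mul_of_nonneg_left hLL0 (by positivity)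
  have hs2L : s / 2 * L0 ≤ s / 2 * L := mul_le_mul_of_nonneg_left hLL0 (by positivity)
  have hJ1 : (2 / (Real.sqrt Real.pi * (β * L))) * (∫ u in (0 : ℝ)..(β * L),
      Rw γ (u / (β * L)) * Yf u) ≤ T / (2 * Real.pi) * L * W * (c' + ε1) := by
    have h1 := hYint (β * L) ((1 + s) * W * (T / (2 * Real.pi))) (CM * W) T 0
      (by have := q4.trans hLL0; rw [div_le_iff₀ hβ] at this; linarith) (by positivity)
      (by positivity) hTpos.le le_rfl
    rw [← hJdef, ← hRdef] at h1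
    have h2 := ms_parts (CM := CM) (R := R) (J := J) (W := W) hs (by linarith : 1 ≤ L) hTT hβ hW0 hJ
      hR hCM (q7.trans hLL0) hε1
    rw [hc'def]
    refine le_trans (mul_le_mul_of_nonneg_left ?_ (by positivity)) h2
    rw [hYf]
    exact h1
  have hs12 : Real.sqrt (W * Ci) + Real.sqrt (W * CM) ≤ ε1 * L * Real.sqrt W := by
    rw [Real.sqrt_mul hW0, Real.sqrt_mul hW0, ← mul_add]
    have h1 := q8.trans hLL0
    rw [div_le_iff₀ hε1] at h1
    calc Real.sqrt W * (Real.sqrt Ci + Real.sqrt CM) ≤ Real.sqrt W * (L * ε1) :=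
          mul_le_mul_of_nonneg_left h1 (Real.sqrt_nonneg _)
      _ = _ := by ring
  have core : ∀ (D : ℝ) (SM : ℝ), 0 < D → D ≤ CC →
      SM ≤ W * ((1 + 2 * η) * L) ^ 2 * R * T / (2 * Real.pi * (β * L)) +
        (2 / (Real.sqrt Real.pi * (β * L))) * (∫ u in (0 : ℝ)..(β * L),
          Rw γ (u / (β * L)) * Yf u) +
      D * (W * (((1 + 2 * η) * L) ^ 2 * L / (β * L) + ((1 + 2 * η) * L) * T / (β * L) +
        L * ((1 + 2 * η) * L)) + Real.sqrt W * ((1 + 2 * η) * L) * T *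
          (Real.sqrt (W * Ci) + Real.sqrt (W * CM)) / (β * L)) →
      SM ≤ κ0 * SN := by
    intro D SM hD hDC hSM
    have h1 : SM ≤ (R / β + c' + s) * SN := by
      refine H385.numeric_core β c' s R D C2 η ε1 L T W _ SM _ _ hβ hc' hs hR hD
        hC2 hη hη1 hε1 hL8 hTL hW0 hη2 hε1a ?_ ?_ ?_ hJ1 hs12 hSM hN
      · refine le_trans ?_ (q5.trans hs8L)
        have : 0 ≤ (12 / β + 3) * (2 * Real.pi) := by positivity
        rw [mul_assoc, mul_assoc]
        exact mul_le_mul_of_nonneg_right hDC this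
      · refine le_trans ?_ hε1b
        gcongr
      · exact q6.trans hs2L
    exact h1.trans (mul_le_mul_of_nonneg_right hsκ.le hSN0)
  constructor
  · refine core C1 _ hC1 hCCa ?_
    rw [primFam_eq]
    rw [hW, ← hRdef] at k1
    exact k1
  · refine core C1' _ hC1' hCCb ?_
    rw [primFam_eq]
    rw [hW, ← hRdef] at k2
    exact k2

end Pool.Agent.N880.HD
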