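import Pool.Agent.N880.HD.Stm

/-!
Project HD: from blocks to the Gaussian kernel. By helper945.
-/

set_option autoImplicit false

open Complex Filter Topology MeasureTheory Set

namespace Pool.Agent.N880.HD

theorem gau_int {b : ℝ} (hb : 0 < b) (a : ℝ) :
    Integrable (fun v : ℝ => Real.exp (-b * (v - a) ^ 2)) :=
  (integrable_exp_neg_mul_sq hb).comp_sub_right a

theorem gau_val (b a : ℝ) : ∫ v : ℝ, Real.exp (-b * (v - a) ^ 2) = √(Real.pi / b) := by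
  rw [integral_sub_right_eq_self (fun v : ℝ => Real.exp (-b * v ^ 2)) a, integral_gaussian]

theorem gau_c1 {κ : ℝ} (hκ : 0 < κ) : κ / √Real.pi * √(Real.pi / κ ^ 2) = 1 := by
  have h1 : 0 < √Real.pi := Real.sqrt_pos.2 Real.pi_pos
  rw [Real.sqrt_div Real.pi_pos.le, Real.sqrt_sq hκ.le]
  field_simp

theorem gau_c2 {κ : ℝ} (hκ : 0 < κ) : κ / √Real.pi * √(Real.pi / (κ ^ 2 / 2)) = √2 := by
  have h1 : 0 < √Real.pi := Real.sqrt_pos.2 Real.pi_pos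
  have h2 : Real.pi / (κ ^ 2 / 2) = 2 * (Real.pi / κ ^ 2) := by field_simp
  rw [h2, Real.sqrt_mul (by norm_num), ← mul_assoc, mul_comm (κ / √Real.pi), mul_assoc, gau_c1 hκ,
    mul_one]

/-- the product of two Gaussians -/
theorem gau_prod (κ a b v : ℝ) :
    Real.exp (-(κ ^ 2 * (v - a) ^ 2 / 2)) * Real.exp (-(κ ^ 2 * (v - b) ^ 2 / 2)) =
      Real.exp (-(κ ^ 2 * (a - b) ^ 2 / 4)) * Real.exp (-κ ^ 2 * (v - (a + b) / 2) ^ 2) := by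
  rw [← Real.exp_add, ← Real.exp_add]
  congr 1
  ring

theorem gau_split {δ a b : ℝ} (hδ : 0 < δ) :
    (a + b) ^ 2 ≤ (1 + δ) * a ^ 2 + (1 + 1 / δ) * b ^ 2 := by
  have h1 : 0 ≤ (δ * a - b) ^ 2 / δ := by positivity
  have h2 : (δ * a - b) ^ 2 / δ = δ * a ^ 2 - 2 * a * b + 1 / δ * b ^ 2 := by
    field_simp
    ring
  nlinarith

section

variable {J ι : Type} {I : Finset J} {ω : J → ℝ} {z : J → ι → ℂ} {P : Finset ι} {ℓ : ι → ℝ}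
  {A κ ρ δ : ℝ}

/-- the window function -/
noncomputable def gau_F (I : Finset J) (ω : J → ℝ) (z : J → ι → ℂ) (P : Finset ι) (ℓ : ι → ℝ)
    (κ : ℝ) (x : ι → ℂ) (v : ℝ) : ℝ :=
  ∑ i ∈ I, ω i * ‖∑ p ∈ P, z i p * (x p * (Real.exp (-(κ ^ 2 * (v - ℓ p) ^ 2 / 2)) : ℝ))‖ ^ 2

theorem gau_expand (x : ι → ℂ) (v : ℝ) : gau_F I ω z P ℓ κ x v =
    ∑ i ∈ I, ∑ p ∈ P, ∑ q ∈ P, (ω i * (((z i p * x p) * (starRingEnd ℂ) (z i q * x q)).re *
      Real.exp (-(κ ^ 2 * (ℓ p - ℓ q) ^ 2 / 4)))) *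
        Real.exp (-κ ^ 2 * (v - (ℓ p + ℓ q) / 2) ^ 2) := by
  unfold gau_F
  refine Finset.sum_congr rfl fun i _ => ?_
  have h1 : ∀ S : ℂ, ‖S‖ ^ 2 = (S * (starRingEnd ℂ) S).re := by
    intro S
    rw [Complex.mul_conj, Complex.ofReal_re, Complex.normSq_eq_norm_sq]
  rw [h1, map_sum, Finset.sum_mul_sum, Complex.re_sum, Finset.mul_sum]
  refine Finset.sum_congr rfl fun p _ => ?_
  rw [Complex.re_sum, Finset.mul_sum]
  refine Finset.sum_congr rfl fun q _ => ?_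
  have h2 : z i p * (x p * (Real.exp (-(κ ^ 2 * (v - ℓ p) ^ 2 / 2)) : ℝ)) *
      (starRingEnd ℂ) (z i q * (x q * (Real.exp (-(κ ^ 2 * (v - ℓ q) ^ 2 / 2)) : ℝ))) =
      ((z i p * x p) * (starRingEnd ℂ) (z i q * x q)) *
        ((Real.exp (-(κ ^ 2 * (v - ℓ p) ^ 2 / 2)) *
          Real.exp (-(κ ^ 2 * (v - ℓ q) ^ 2 / 2)) : ℝ) : ℂ) := by
    simp only [map_mul, Complex.conj_ofReal]
    push_cast
    ring
  rw [h2, Complex.re_mul_ofReal, gau_prod]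
  ring

theorem gau_term (hκ : 0 < κ) (c : ℝ) (a : ℝ) :
    Integrable (fun v : ℝ => c * Real.exp (-κ ^ 2 * (v - a) ^ 2)) := by
  have h1 := (gau_int (b := κ ^ 2) (by positivity) a).const_mul c
  exact h1

theorem gau_F_int (hκ : 0 < κ) (x : ι → ℂ) : Integrable (gau_F I ω z P ℓ κ x) := by
  have h1 : gau_F I ω z P ℓ κ x = fun v => ∑ i ∈ I, ∑ p ∈ P, ∑ q ∈ P,
      (ω i * (((z i p * x p) * (starRingEnd ℂ) (z i q * x q)).re *
      Real.exp (-(κ ^ 2 * (ℓ p - ℓ q) ^ 2 / 4)))) *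
        Real.exp (-κ ^ 2 * (v - (ℓ p + ℓ q) / 2) ^ 2) := funext fun v => gau_expand x v
  rw [h1]
  exact integrable_finsetSum _ fun i _ => integrable_finsetSum _ fun p _ =>
    integrable_finsetSum _ fun q _ => gau_term hκ _ _

/-- the left side as an integral -/
theorem gau_left (hκ : 0 < κ) (x : ι → ℂ) :
    ∑ i ∈ I, ω i * (∑ p ∈ P, ∑ q ∈ P, (z i p * x p) *
        (starRingEnd ℂ) (z i q * x q) *
        ((Real.exp (-(κ ^ 2 * (ℓ p - ℓ q) ^ 2 / 4)) : ℝ) : ℂ)).re =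
      κ / √Real.pi * ∫ v : ℝ, gau_F I ω z P ℓ κ x v := by
  have h1 : (fun v => gau_F I ω z P ℓ κ x v) = fun v => ∑ i ∈ I, ∑ p ∈ P, ∑ q ∈ P,
      (ω i * (((z i p * x p) * (starRingEnd ℂ) (z i q * x q)).re *
      Real.exp (-(κ ^ 2 * (ℓ p - ℓ q) ^ 2 / 4)))) *
        Real.exp (-κ ^ 2 * (v - (ℓ p + ℓ q) / 2) ^ 2) := funext fun v => gau_expand x v
  rw [h1, integral_finsetSum _ fun i _ => integrable_finsetSum _ fun p _ =>
    integrable_finsetSum _ fun q _ => gau_term hκ _ _, Finset.mul_sum]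
  refine Finset.sum_congr rfl fun i _ => ?_
  rw [integral_finsetSum _ fun p _ => integrable_finsetSum _ fun q _ => gau_term hκ _ _,
    Complex.re_sum, Finset.mul_sum, Finset.mul_sum]
  refine Finset.sum_congr rfl fun p _ => ?_
  rw [integral_finsetSum _ fun q _ => gau_term hκ _ _, Complex.re_sum, Finset.mul_sum,
    Finset.mul_sum]
  refine Finset.sum_congr rfl fun q _ => ?_
  have h2 := gau_val (κ ^ 2) ((ℓ p + ℓ q) / 2)
  rw [integral_const_mul, Complex.re_mul_ofReal]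
  have h3 : ∫ v : ℝ, Real.exp (-κ ^ 2 * (v - (ℓ p + ℓ q) / 2) ^ 2) = √(Real.pi / κ ^ 2) := h2
  rw [h3]
  have h4 := gau_c1 hκ
  linear_combination (-(ω i * (((z i p * x p) * (starRingEnd ℂ) (z i q * x q)).re *
      Real.exp (-(κ ^ 2 * (ℓ p - ℓ q) ^ 2 / 4))))) * h4

/-- the bound at one point -/
theorem gau_point (hδ : 0 < δ) (hω : ∀ i ∈ I, 0 ≤ ω i) (hz : ∀ i p, ‖z i p‖ ≤ 1) (hρ : 0 < ρ)
    (hA : 0 ≤ A)
    (H : ∀ (v : ℝ) (x : ι → ℂ), (∀ p, ρ < |ℓ p - v| → x p = 0) →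
      ∑ i ∈ I, ω i * ‖∑ p ∈ P, z i p * x p‖ ^ 2 ≤ A * ∑ p ∈ P, ‖x p‖ ^ 2) (x : ι → ℂ) (v : ℝ) :
    gau_F I ω z P ℓ κ x v ≤
      (∑ p ∈ P, ((1 + δ) * A * ‖x p‖ ^ 2) * Real.exp (-κ ^ 2 * (v - ℓ p) ^ 2)) +
      ∑ p ∈ P, ((1 + 1 / δ) * (∑ i ∈ I, ω i) * (∑ p ∈ P, ‖x p‖ ^ 2) *
        Real.exp (-(κ * ρ) ^ 2 / 2)) * Real.exp (-(κ ^ 2 / 2) * (v - ℓ p) ^ 2) := by
  classical
  set g : ι → ℝ := fun p => Real.exp (-(κ ^ 2 * (v - ℓ p) ^ 2 / 2)) with hg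
  set xn : ι → ℂ := fun p => if ρ < |ℓ p - v| then 0 else x p * (g p : ℝ) with hxn
  set xf : ι → ℂ := fun p => if ρ < |ℓ p - v| then x p * (g p : ℝ) else 0 with hxf
  have hsum : ∀ p, x p * ((g p : ℝ) : ℂ) = xn p + xf p := by
    intro p
    simp only [hxn, hxf]
    split_ifs <;> simp
  have hgsq : ∀ p, g p ^ 2 = Real.exp (-κ ^ 2 * (v - ℓ p) ^ 2) := by
    intro p
    rw [hg, ← Real.exp_nat_mul]
    congr 1
    push_cast
    ring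
  have hnear : ∑ i ∈ I, ω i * ‖∑ p ∈ P, z i p * xn p‖ ^ 2 ≤
      A * ∑ p ∈ P, ‖x p‖ ^ 2 * Real.exp (-κ ^ 2 * (v - ℓ p) ^ 2) := by
    refine (H v xn fun p hp => if_pos hp).trans ?_
    refine mul_le_mul_of_nonneg_left (Finset.sum_le_sum fun p _ => ?_) hA
    rw [← hgsq]
    have h1 : ‖xn p‖ ≤ ‖x p‖ * g p := by
      simp only [hxn]
      split_ifs
      · rw [norm_zero]
        have : 0 < g p := Real.exp_pos _
        positivity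
      · rw [norm_mul, Complex.norm_real, Real.norm_of_nonneg (Real.exp_pos _).le]
    calc ‖xn p‖ ^ 2 ≤ (‖x p‖ * g p) ^ 2 := pow_le_pow_left₀ (norm_nonneg _) h1 2
      _ = ‖x p‖ ^ 2 * g p ^ 2 := mul_pow _ _ _
  have hfar : ∀ i, ‖∑ p ∈ P, z i p * xf p‖ ^ 2 ≤
      (∑ p ∈ P, ‖x p‖ ^ 2) * ∑ p ∈ P, Real.exp (-(κ * ρ) ^ 2 / 2) *
        Real.exp (-(κ ^ 2 / 2) * (v - ℓ p) ^ 2) := by
    intro i
    set f : ι → ℝ := fun p => Real.exp (-(κ * ρ) ^ 2 / 4) *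
      Real.exp (-(κ ^ 2 / 4) * (v - ℓ p) ^ 2) with hf
    have hfsq : ∀ p, f p ^ 2 = Real.exp (-(κ * ρ) ^ 2 / 2) *
        Real.exp (-(κ ^ 2 / 2) * (v - ℓ p) ^ 2) := by
      intro p
      rw [hf, mul_pow, ← Real.exp_nat_mul, ← Real.exp_nat_mul]
      congr 2
      · push_cast
        ring
      · push_cast
        ring
    have h1 : ‖∑ p ∈ P, z i p * xf p‖ ≤ ∑ p ∈ P, ‖x p‖ * f p := by
      refine (norm_sum_le _ _).trans (Finset.sum_le_sum fun p _ => ?_)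
      rw [norm_mul]
      have h2 : ‖xf p‖ ≤ ‖x p‖ * f p := by
        simp only [hxf]
        split_ifs with hp
        · rw [norm_mul, Complex.norm_real, Real.norm_of_nonneg (Real.exp_pos _).le]
          refine mul_le_mul_of_nonneg_left ?_ (norm_nonneg _)
          show Real.exp (-(κ ^ 2 * (v - ℓ p) ^ 2 / 2)) ≤
            Real.exp (-(κ * ρ) ^ 2 / 4) * Real.exp (-(κ ^ 2 / 4) * (v - ℓ p) ^ 2)
          rw [← Real.exp_add]
          refine Real.exp_le_exp.2 ?_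
          have h3 : ρ ^ 2 ≤ (v - ℓ p) ^ 2 := by
            have h4 : ρ ^ 2 ≤ |ℓ p - v| ^ 2 := pow_le_pow_left₀ hρ.le hp.le 2
            rw [sq_abs] at h4
            linarith [sq_nonneg (v - ℓ p), (by ring : (ℓ p - v) ^ 2 = (v - ℓ p) ^ 2)]
          have h5 : κ ^ 2 * ρ ^ 2 ≤ κ ^ 2 * (v - ℓ p) ^ 2 :=
            mul_le_mul_of_nonneg_left h3 (sq_nonneg _)
          have h6 : (κ * ρ) ^ 2 = κ ^ 2 * ρ ^ 2 := by ring
          rw [h6]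
          linarith
        · rw [norm_zero]
          have : 0 < f p := by
            rw [hf]
            positivity
          positivity
      calc ‖z i p‖ * ‖xf p‖ ≤ 1 * (‖x p‖ * f p) :=
            mul_le_mul (hz i p) h2 (norm_nonneg _) zero_le_one
        _ = ‖x p‖ * f p := one_mul _
    calc ‖∑ p ∈ P, z i p * xf p‖ ^ 2 ≤ (∑ p ∈ P, ‖x p‖ * f p) ^ 2 :=
          pow_le_pow_left₀ (norm_nonneg _) h1 2
      _ ≤ (∑ p ∈ P, ‖x p‖ ^ 2) * ∑ p ∈ P, f p ^ 2 := Finset.sum_mul_sq_le_sq_mul_sq _ _ _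
      _ = _ := by
        congr 1
        exact Finset.sum_congr rfl fun p _ => hfsq p
  have hd : 0 ≤ 1 + 1 / δ := by positivity
  have hF : gau_F I ω z P ℓ κ x v ≤ (1 + δ) * (∑ i ∈ I, ω i * ‖∑ p ∈ P, z i p * xn p‖ ^ 2) +
      (1 + 1 / δ) * ∑ i ∈ I, ω i * ‖∑ p ∈ P, z i p * xf p‖ ^ 2 := by
    unfold gau_F
    rw [Finset.mul_sum, Finset.mul_sum, ← Finset.sum_add_distrib]
    refine Finset.sum_le_sum fun i hi => ?_
    have h1 : ∑ p ∈ P, z i p * (x p * ((Real.exp (-(κ ^ 2 * (v - ℓ p) ^ 2 / 2)) : ℝ) : ℂ)) =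
        ∑ p ∈ P, z i p * xn p + ∑ p ∈ P, z i p * xf p := by
      rw [← Finset.sum_add_distrib]
      refine Finset.sum_congr rfl fun p _ => ?_
      rw [← mul_add, ← hsum p]
    rw [h1]
    have h2 : ‖∑ p ∈ P, z i p * xn p + ∑ p ∈ P, z i p * xf p‖ ^ 2 ≤
        (1 + δ) * ‖∑ p ∈ P, z i p * xn p‖ ^ 2 + (1 + 1 / δ) * ‖∑ p ∈ P, z i p * xf p‖ ^ 2 :=
      (pow_le_pow_left₀ (norm_nonneg _) (norm_add_le _ _) 2).trans (gau_split hδ)
    have h3 := mul_le_mul_of_nonneg_left h2 (hω i hi)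
    linarith
  refine hF.trans (add_le_add ?_ ?_)
  · have h1 := mul_le_mul_of_nonneg_left hnear (by linarith : (0 : ℝ) ≤ 1 + δ)
    refine h1.trans (le_of_eq ?_)
    rw [Finset.mul_sum, Finset.mul_sum]
    exact Finset.sum_congr rfl fun p _ => by ring
  · have h1 : ∑ i ∈ I, ω i * ‖∑ p ∈ P, z i p * xf p‖ ^ 2 ≤
        ∑ i ∈ I, ω i * ((∑ p ∈ P, ‖x p‖ ^ 2) * ∑ p ∈ P, Real.exp (-(κ * ρ) ^ 2 / 2) *
        Real.exp (-(κ ^ 2 / 2) * (v - ℓ p) ^ 2)) :=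
      Finset.sum_le_sum fun i hi => mul_le_mul_of_nonneg_left (hfar i) (hω i hi)
    refine (mul_le_mul_of_nonneg_left h1 hd).trans (le_of_eq ?_)
    rw [← Finset.sum_mul, Finset.mul_sum, Finset.mul_sum, Finset.mul_sum]
    exact Finset.sum_congr rfl fun p _ => by ring

end

theorem gauss_main : S_gauss := by
  intro δ hδ
  refine ⟨2 * (1 + 1 / δ), by positivity, ?_⟩
  intro J ι I ω z P ℓ A κ ρ hω hz hκ hρ hA H x
  rw [gau_left hκ x]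
  have hW : 0 ≤ ∑ i ∈ I, ω i := Finset.sum_nonneg hω
  have hX : 0 ≤ ∑ p ∈ P, ‖x p‖ ^ 2 := Finset.sum_nonneg fun p _ => by positivity
  have i1 : Integrable (fun v : ℝ => ∑ p ∈ P, ((1 + δ) * A * ‖x p‖ ^ 2) *
      Real.exp (-κ ^ 2 * (v - ℓ p) ^ 2)) :=
    integrable_finsetSum _ fun p _ => gau_term hκ _ _
  have hk2 : 0 < κ ^ 2 / 2 := by positivity
  have i2 : Integrable (fun v : ℝ => ∑ p ∈ P, ((1 + 1 / δ) * (∑ i ∈ I, ω i) *
      (∑ p ∈ P, ‖x p‖ ^ 2) * Real.exp (-(κ * ρ) ^ 2 / 2)) *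
        Real.exp (-(κ ^ 2 / 2) * (v - ℓ p) ^ 2)) :=
    integrable_finsetSum _ fun p _ => (gau_int hk2 _).const_mul _
  have h1 : ∫ v : ℝ, gau_F I ω z P ℓ κ x v ≤
      ∫ v : ℝ, ((∑ p ∈ P, ((1 + δ) * A * ‖x p‖ ^ 2) * Real.exp (-κ ^ 2 * (v - ℓ p) ^ 2)) +
      ∑ p ∈ P, ((1 + 1 / δ) * (∑ i ∈ I, ω i) * (∑ p ∈ P, ‖x p‖ ^ 2) *
        Real.exp (-(κ * ρ) ^ 2 / 2)) * Real.exp (-(κ ^ 2 / 2) * (v - ℓ p) ^ 2)) :=
    integral_mono (gau_F_int hκ x) (i1.add i2) fun v => gau_point hδ hω hz hρ hA H x v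
  rw [integral_add i1 i2, integral_finsetSum _ fun p _ => gau_term hκ _ _,
    integral_finsetSum _ fun p _ => (gau_int hk2 _).const_mul _] at h1
  have h2 : ∀ p ∈ P, ∫ v : ℝ, ((1 + δ) * A * ‖x p‖ ^ 2) * Real.exp (-κ ^ 2 * (v - ℓ p) ^ 2) =
      ((1 + δ) * A * ‖x p‖ ^ 2) * √(Real.pi / κ ^ 2) := by
    intro p _
    rw [integral_const_mul]
    congr 1
    exact gau_val (κ ^ 2) (ℓ p)
  have h3 : ∀ p ∈ P, ∫ v : ℝ, ((1 + 1 / δ) * (∑ i ∈ I, ω i) * (∑ p ∈ P, ‖x p‖ ^ 2) *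
        Real.exp (-(κ * ρ) ^ 2 / 2)) * Real.exp (-(κ ^ 2 / 2) * (v - ℓ p) ^ 2) =
      ((1 + 1 / δ) * (∑ i ∈ I, ω i) * (∑ p ∈ P, ‖x p‖ ^ 2) *
        Real.exp (-(κ * ρ) ^ 2 / 2)) * √(Real.pi / (κ ^ 2 / 2)) := by
    intro p _
    rw [integral_const_mul]
    congr 1
    exact gau_val (κ ^ 2 / 2) (ℓ p)
  rw [Finset.sum_congr rfl h2, Finset.sum_congr rfl h3, Finset.sum_const, nsmul_eq_mul,
    ← Finset.sum_mul, ← Finset.mul_sum] at h1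
  have hc : 0 ≤ κ / √Real.pi := by positivity
  have h4 := mul_le_mul_of_nonneg_left h1 hc
  refine h4.trans ?_
  have c1 := gau_c1 hκ
  have c2 := gau_c2 hκ
  have hs2 : √2 ≤ 2 := by
    rw [Real.sqrt_le_left (by norm_num)]
    norm_num
  set X := ∑ p ∈ P, ‖x p‖ ^ 2 with hXd
  set W := ∑ i ∈ I, ω i with hWd
  set e := Real.exp (-(κ * ρ) ^ 2 / 2) with he
  have he0 : 0 < e := Real.exp_pos _
  have h5 : κ / √Real.pi * ((1 + δ) * A * X * √(Real.pi / κ ^ 2) +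
      (P.card : ℝ) * ((1 + 1 / δ) * W * X * e * √(Real.pi / (κ ^ 2 / 2)))) =
      (1 + δ) * A * X + (P.card : ℝ) * ((1 + 1 / δ) * W * X * e) * √2 := by
    rw [← c2]
    linear_combination ((1 + δ) * A * X) * c1
  rw [h5]
  have h6 : 0 ≤ (P.card : ℝ) * ((1 + 1 / δ) * W * X * e) := by positivity
  have h7 := mul_le_mul_of_nonneg_left hs2 h6
  nlinarith

end Pool.Agent.N880.HD
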