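import Pool.Agent.N880.HD.Blo
import Pool.Agent.H385R2.Cut

/-! # The mean square over the family of all primitive characters -/

set_option autoImplicit false

open Complex Filter Topology MeasureTheory Set

namespace Pool.Agent.N880.HD

open H385 (c0 primFam bt wt Rw WW IX primSet primFam_eq bt_norm wt_nonneg wt_le_one bt_sq_int
  wt_sq_int bt_cont)
open Pool.Agent.N880.QF (PP mem_PP yy yy_sq yy_abs card_PP sq_add_le)

lemma main_sum_integrable {ι : Type} (P : Finset ι) (z : ι → ℂ) (ℓ : ι → ℝ) {T κ u : ℝ}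
    (hκ : 1 ≤ κ) (hT : 1 ≤ T) (hTκ : T ≤ Real.exp (κ ^ 2)) : Integrable (fun t : ℝ =>
      ‖∑ p ∈ P, z p * bt T u t (ℓ p)‖ ^ 2) := by
  obtain ⟨C, _, h⟩ := bt_sq_int
  have h1 : Integrable (fun t : ℝ => (P.card : ℝ) * ∑ p ∈ P, ‖z p‖ ^ 2 *
      ‖bt T u t (ℓ p)‖ ^ 2) :=
    (integrable_finsetSum P fun p _ =>
      (h T κ u (ℓ p) hκ hT hTκ).1.const_mul (‖z p‖ ^ 2)).const_mul (P.card : ℝ)
  have hcont : Continuous (fun t : ℝ => ‖∑ p ∈ P, z p * bt T u t (ℓ p)‖ ^ 2) := by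
    apply Continuous.pow
    apply Continuous.norm
    refine continuous_finsetSum _ fun p _ => continuous_const.mul ?_
    exact (bt_cont T (ℓ p)).comp (continuous_const.prodMk continuous_id)
  refine h1.mono' hcont.aestronglyMeasurable (Eventually.of_forall fun t => ?_)
  rw [Real.norm_eq_abs, abs_of_nonneg (by positivity)]
  have h2 : ‖∑ p ∈ P, z p * bt T u t (ℓ p)‖ ≤ ∑ p ∈ P, ‖z p‖ * ‖bt T u t (ℓ p)‖ := by
    refine (norm_sum_le _ _).trans (le_of_eq (Finset.sum_congr rfl fun p _ => ?_))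
    rw [norm_mul]
  calc _ ≤ (∑ p ∈ P, ‖z p‖ * ‖bt T u t (ℓ p)‖) ^ 2 := pow_le_pow_left₀ (norm_nonneg _) h2 2
    _ ≤ (P.card : ℝ) * ∑ p ∈ P, (‖z p‖ * ‖bt T u t (ℓ p)‖) ^ 2 := sq_sum_le_card_mul_sum_sq
    _ = _ := by
        congr 1
        refine Finset.sum_congr rfl fun p _ => ?_
        rw [mul_pow]

/-- thresholds -/
lemma thr {s e0 Cg δ κ0 d0 : ℝ} (hs : 0 < s) (he0 : 0 < e0) (hCg : 0 < Cg) (hδ : 0 < δ) :
    ∃ L1 : ℝ, ∀ L : ℝ, L1 ≤ L → 12 * L ^ 2 * Real.exp (-(3 / 4 * s * L)) ≤ e0 / 2 ∧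
      Cg * (Real.exp (3 * L) * Real.exp (-L ^ 2 / 2)) ≤ δ ∧ κ0 ≤ L ∧ 1 / d0 ≤ L ∧ 1 ≤ L := by
  have hc : 0 < 3 / 4 * s := by positivity
  have h1 : Tendsto (fun L : ℝ => (12 / (3 / 4 * s) ^ 2) *
      ((3 / 4 * s * L) ^ 2 * Real.exp (-(3 / 4 * s * L)))) atTop (𝓝 0) := by
    have := (Real.tendsto_pow_mul_exp_neg_atTop_nhds_zero 2).comp
      (tendsto_id.const_mul_atTop hc)
    have h2 := this.const_mul (12 / (3 / 4 * s) ^ 2)
    rw [mul_zero] at h2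
    exact h2
  have h2 : ∀ᶠ L : ℝ in atTop, (12 / (3 / 4 * s) ^ 2) *
      ((3 / 4 * s * L) ^ 2 * Real.exp (-(3 / 4 * s * L))) ≤ e0 / 2 :=
    (h1.eventually (gt_mem_nhds (by positivity : (0 : ℝ) < e0 / 2))).mono fun _ h => h.le
  have h3 : Tendsto (fun L : ℝ => Cg * Real.exp (-L)) atTop (𝓝 0) := by
    have := (Real.tendsto_exp_neg_atTop_nhds_zero).const_mul Cg
    rwa [mul_zero] at this
  have h4 : ∀ᶠ L : ℝ in atTop, Cg * Real.exp (-L) ≤ δ :=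
    (h3.eventually (gt_mem_nhds hδ)).mono fun _ h => h.le
  obtain ⟨L1, hL1⟩ := Filter.eventually_atTop.1 (h2.and (h4.and ((eventually_ge_atTop κ0).and
    ((eventually_ge_atTop (1 / d0)).and ((eventually_ge_atTop 1).and (eventually_ge_atTop 8))))))
  refine ⟨L1, fun L hL => ?_⟩
  obtain ⟨g1, g2, g3, g4, g5, g6⟩ := hL1 L hL
  refine ⟨?_, ?_, g3, g4, g5⟩
  · refine le_trans (le_of_eq ?_) g1
    field_simp
  · refine le_trans (mul_le_mul_of_nonneg_left ?_ hCg.le) g2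
    rw [← Real.exp_add]
    exact Real.exp_le_exp.2 (by nlinarith)

lemma num_ms {δ s Tp I1 C2 C5 Cw L u T W CR C3 κ : ℝ} (hδ : 0 < δ)
    (hδs : δ = s / 20) (hs1 : s ≤ 1 / 2) (hTp : 0 ≤ Tp)
    (hI1 : 0 ≤ I1) (hC2 : 0 < C2) (hC5 : 0 < C5) (hL : 1 ≤ L) (hu : 0 ≤ u) (huL : u ≤ 2 * L)
    (hκ : κ = T / L) (hT : 1 ≤ T) (hW0 : 0 ≤ W) (hCw : 0 < Cw) (hCR : 0 < CR) (hC3 : 0 < C3) :
    (1 + δ) * ((1 + δ) * (((1 + δ) * ((1 + δ) * W) + δ * W)) * Tp * I1 +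
      C2 * ((1 + δ) * ((1 + δ) * W) + δ * W) * κ * (C5 * (u + 1)) +
      C2 * W * T * Cw) + (1 + 1 / δ) * (CR ^ 2 * W) * (T + C3) ≤
    (1 + s) * W * Tp * I1 +
      (12 * C2 * C5 + 2 * C2 * Cw + (1 + 1 / δ) * CR ^ 2 * (1 + C3)) * W * T := by
  have hL0 : 0 < L := by linarith
  have hd2 : δ ≤ 1 / 40 := by rw [hδs]; linarith
  have hA : (1 + δ) * ((1 + δ) * W) + δ * W = ((1 + δ) * (1 + δ) + δ) * W := by ring
  have hA1 : (1 + δ) * (1 + δ) + δ ≤ 1 + 4 * δ := by nlinarith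
  have h1 : (1 + δ) * ((1 + δ) * (((1 + δ) * ((1 + δ) * W) + δ * W)) * Tp * I1) ≤
      (1 + s) * W * Tp * I1 := by
    have h2 : (1 + δ) * ((1 + δ) * ((1 + δ) * (1 + δ) + δ)) ≤ 1 + s := by
      have e1 : (1 + δ) * (1 + δ) ≤ 1 + 3 * δ := by nlinarith
      have e2 : (1 + δ) * ((1 + δ) * ((1 + δ) * (1 + δ) + δ)) ≤ (1 + 3 * δ) * (1 + 4 * δ) := by
        rw [← mul_assoc]
        exact mul_le_mul e1 hA1 (by positivity) (by positivity)
      have e3 : (1 + 3 * δ) * (1 + 4 * δ) ≤ 1 + 8 * δ := by nlinarith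
      have e4 : 8 * δ ≤ s := by rw [hδs] at hδ ⊢; linarith
      linarith
    have h3 : 0 ≤ W * Tp * I1 := by positivity
    calc _ = ((1 + δ) * ((1 + δ) * ((1 + δ) * (1 + δ) + δ))) * (W * Tp * I1) := by ring
      _ ≤ (1 + s) * (W * Tp * I1) := mul_le_mul_of_nonneg_right h2 h3
      _ = _ := by ring
  have hκu : κ * (u + 1) ≤ 3 * T := by
    rw [hκ, div_mul_eq_mul_div, div_le_iff₀ hL0]
    nlinarith
  have h4 : (1 + δ) * (C2 * ((1 + δ) * ((1 + δ) * W) + δ * W) * κ * (C5 * (u + 1))) ≤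
      (12 * C2 * C5) * W * T := by
    have h5 : (1 + δ) * ((1 + δ) * (1 + δ) + δ) ≤ 4 := by nlinarith
    calc _ = ((1 + δ) * ((1 + δ) * (1 + δ) + δ)) * (C2 * C5 * W) * (κ * (u + 1)) := by ring
      _ ≤ 4 * (C2 * C5 * W) * (3 * T) := by
          have : 0 ≤ κ * (u + 1) := by rw [hκ]; positivity
          refine mul_le_mul ?_ hκu this (by positivity)
          exact mul_le_mul_of_nonneg_right h5 (by positivity)
      _ = _ := by ring
  have h7 : (1 + δ) * (C2 * W * T * Cw) ≤ (2 * C2 * Cw) * W * T := by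
    calc _ ≤ 2 * (C2 * W * T * Cw) := mul_le_mul_of_nonneg_right (by linarith) (by positivity)
      _ = _ := by ring
  have h8 : (1 + 1 / δ) * (CR ^ 2 * W) * (T + C3) ≤ ((1 + 1 / δ) * CR ^ 2 * (1 + C3)) * W * T := by
    have h9 : T + C3 ≤ (1 + C3) * T := by nlinarith
    calc _ ≤ (1 + 1 / δ) * (CR ^ 2 * W) * ((1 + C3) * T) :=
          mul_le_mul_of_nonneg_left h9 (by positivity)
      _ = _ := by ring
  have e0 : (12 * C2 * C5 + 2 * C2 * Cw + (1 + 1 / δ) * CR ^ 2 * (1 + C3)) * W * T =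
    (12 * C2 * C5) * W * T + (2 * C2 * Cw) * W * T + ((1 + 1 / δ) * CR ^ 2 * (1 + C3)) * W * T := by
    ring
  rw [e0, mul_add, mul_add]
  linarith

theorem ms_main (hprim : S_prim) (hgauss : S_gauss) (hwin : S_winC)
    (hrest : Pool.Agent.N880.QF.S_rest) : S_ms := by
  intro τ s hτ hs hs1
  obtain ⟨δ, hδ⟩ : ∃ δ, δ = s / 20 := ⟨_, rfl⟩
  have hδ0 : 0 < δ := by rw [hδ]; positivity
  have hδ1 : δ ≤ 1 := by rw [hδ]; linarith
  obtain ⟨B, K, e0, hB1, hK1, he0, hp⟩ := hprim δ hδ0 hδ1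
  obtain ⟨Cg, hCg, hg⟩ := hgauss δ hδ0
  obtain ⟨C2, κ0, d0, hC2, hκ0, hd0, hw⟩ := hwin δ hδ0
  obtain ⟨CR, hCR, hr⟩ := hrest B (s / 8) (by positivity)
  obtain ⟨C3, hC3, hwt⟩ := wt_sq_int
  obtain ⟨C5, hC5, hcr⟩ := H385.lam_sq_crude
  obtain ⟨L1, hL1⟩ := thr (κ0 := κ0) (d0 := d0) hs he0 hCg hδ0
  refine ⟨K, 12 * C2 * C5 + 2 * C2 * (4 * Real.exp 144) + (1 + 1 / δ) * CR ^ 2 * (1 + C3),
    max 3 (max (Real.exp L1) (2 / e0)), hK1, by positivity, le_max_left _ _, ?_⟩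
  intro X Y T u hX hKX hYX hT1 hTL hTX hu0 hu
  have hX3 : (3 : ℝ) ≤ X := (le_max_left _ _).trans hX
  have hXL1 : Real.exp L1 ≤ X := ((le_max_left _ _).trans (le_max_right _ _)).trans hX
  have hXe0 : 2 / e0 ≤ X := ((le_max_right _ _).trans (le_max_right _ _)).trans hX
  have hX0 : (0 : ℝ) < X := by linarith
  have hXn : 1 ≤ X := by exact_mod_cast hX0
  have hT0 : 0 < T := by linarith
  obtain ⟨lX, hlX⟩ : ∃ lX, lX = Real.log X := ⟨_, rfl⟩
  obtain ⟨lT, hlT⟩ : ∃ lT, lT = Real.log T := ⟨_, rfl⟩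
  have hLeq : Real.log (X * T) = lX + lT := by
    rw [Real.log_mul hX0.ne' hT0.ne', hlX, hlT]
  obtain ⟨L, hL⟩ : ∃ L, L = Real.log (X * T) := ⟨_, rfl⟩
  rw [← hL] at hTL hu
  rw [← hL] at hLeq
  have hlT0 : 0 ≤ lT := by rw [hlT]; exact Real.log_nonneg hT1
  have hlX1 : L1 ≤ lX := by rw [hlX, Real.le_log_iff_exp_le hX0]; exact hXL1
  have hlX0 : 0 ≤ lX := by rw [hlX]; exact Real.log_nonneg (by linarith)
  have hlTX : lT ≤ τ * lX := by
    have := Real.log_le_log hT0 hTX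
    rw [Real.log_rpow hX0] at this
    rw [hlT, hlX]; exact this
  obtain ⟨t1, t2, t3, t4, t5⟩ := hL1 L (by linarith)
  have hL0 : 0 < L := by linarith
  have hh1 : 1 ≤ (2 + τ) / (1 + τ) := by
    rw [le_div_iff₀ (by linarith)]; linarith
  have hh2 : (2 + τ) / (1 + τ) ≤ 2 := by
    rw [div_le_iff₀ (by linarith)]; linarith
  have hhL : (2 + τ) / (1 + τ) * L ≤ 2 * lX + lT := by
    rw [div_mul_eq_mul_div, div_le_iff₀ (by linarith), hLeq]
    nlinarith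
  have hu2 : u ≤ (2 + τ) / (1 + τ) * L - s * L := by
    have e1 : (1 - s) * ((2 + τ) / (1 + τ)) * L =
      (2 + τ) / (1 + τ) * L - s * ((2 + τ) / (1 + τ) * L) := by ring
    have e2 : L ≤ (2 + τ) / (1 + τ) * L := le_mul_of_one_le_left hL0.le hh1
    have e3 := mul_le_mul_of_nonneg_left e2 hs.le
    linarith
  have hsL : 0 ≤ s * L := by positivity
  have hu2L : u ≤ 2 * L := by
    have := mul_le_mul_of_nonneg_right hh2 hL0.le
    linarith
  have hexp1 : u + s / 8 * (2 * L) ≤ 2 * lX + lT - 3 / 4 * s * L := by linarith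
  have hexp2 : u + s / 8 * (2 * L) ≤ 3 * L := by
    have : s * L ≤ 1 / 2 * L := mul_le_mul_of_nonneg_right hs1 hL0.le
    linarith
  obtain ⟨P, hP⟩ : ∃ P, P = PP B (s / 8) (2 * L) u := ⟨_, rfl⟩
  have hPm : ∀ p ∈ P, p.Prime ∧ B < p ∧ |Real.log p - u| ≤ s / 8 * (2 * L) := fun p hp => by
    rw [hP] at hp; exact mem_PP hp
  have hcard : (P.card : ℝ) ≤ Real.exp (3 * L) := by
    rw [hP]
    refine card_PP (Real.one_le_exp (by positivity)) ?_
    rw [Real.log_exp]; exact hexp2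
  -- parameters
  obtain ⟨κ, hκ⟩ : ∃ κ, κ = T / L := ⟨_, rfl⟩
  obtain ⟨ρ, hρ⟩ : ∃ ρ, ρ = L ^ 2 / T := ⟨_, rfl⟩
  have hκL : L ≤ κ := by
    rw [hκ, le_div_iff₀ hL0]; nlinarith
  have hκ1 : 0 < κ := by linarith
  have hκd : κ ≤ d0 * T := by
    rw [hκ, div_le_iff₀ hL0]
    have : 1 ≤ d0 * L := by
      rw [div_le_iff₀ hd0] at t4; linarith
    nlinarith
  have hρ0 : 0 < ρ := by rw [hρ]; positivity
  have hρ1 : ρ ≤ 1 := by rw [hρ, div_le_one hT0]; exact hTL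
  have hκρ : κ * ρ = L := by rw [hκ, hρ]; field_simp
  have hlen : 12 * ρ * Real.exp (u + s / 8 * (2 * L)) + 1 ≤ e0 * (X : ℝ) ^ 2 := by
    have e1 : Real.exp (u + s / 8 * (2 * L)) ≤ (X : ℝ) ^ 2 * T * Real.exp (-(3 / 4 * s * L)) := by
      refine (Real.exp_le_exp.2 hexp1).trans (le_of_eq ?_)
      rw [show 2 * lX + lT - 3 / 4 * s * L = lX + lX + lT + -(3 / 4 * s * L) by ring,
        Real.exp_add, Real.exp_add, Real.exp_add, hlX, hlT, Real.exp_log hX0, Real.exp_log hT0]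
      ring
    have e2 : 12 * ρ * Real.exp (u + s / 8 * (2 * L)) ≤ e0 / 2 * (X : ℝ) ^ 2 := by
      calc _ ≤ 12 * ρ * ((X : ℝ) ^ 2 * T * Real.exp (-(3 / 4 * s * L))) :=
            mul_le_mul_of_nonneg_left e1 (by positivity)
        _ = (12 * L ^ 2 * Real.exp (-(3 / 4 * s * L))) * (X : ℝ) ^ 2 := by
            rw [hρ]; field_simp
        _ ≤ _ := mul_le_mul_of_nonneg_right t1 (by positivity)
    have e3 : 1 ≤ e0 / 2 * (X : ℝ) ^ 2 := by
      rw [div_le_iff₀ he0] at hXe0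
      nlinarith
    linarith
  have hW0 : 0 ≤ WW X Y := H385.primFam_nonneg _ _ _ (fun _ _ => zero_le_one)
  have hWs : ∑ i ∈ primSet X Y, (1 / (i.1 : ℝ) ^ 2) = WW X Y := by
    unfold WW; rw [primFam_eq]; simp
  obtain ⟨W, hWd⟩ : ∃ W, W = WW X Y := ⟨_, rfl⟩
  rw [← hWd] at hW0 hWs ⊢
  have hω : ∀ i ∈ primSet X Y, 0 ≤ (fun i : IX => 1 / (i.1 : ℝ) ^ 2) i := fun i _ => by positivity
  have hz : ∀ (i : IX) (p : ℕ), ‖(fun (i : IX) (p : ℕ) => i.2 (p : ZMod i.1)) i p‖ ≤ 1 :=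
    fun i p => DirichletCharacter.norm_le_one _ _
  -- kernel estimate
  have hker := hg IX ℕ (primSet X Y) (fun i => 1 / (i.1 : ℝ) ^ 2)
    (fun i p => i.2 (p : ZMod i.1)) P (fun p => Real.log p) ((1 + δ) * W) κ ρ hω hz hκ1 hρ0
    (by positivity) (fun v x hx => by
      rw [hP, hWd]
      exact block_est hp X Y hXn hKX (s / 8) (2 * L) u ρ hρ0 hρ1 hδ0.le hlen v x hx)
  rw [hWs, hκρ] at hker
  obtain ⟨A, hA⟩ : ∃ A, A = (1 + δ) * ((1 + δ) * W) + δ * W := ⟨_, rfl⟩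
  have hA0 : 0 ≤ A := by rw [hA]; positivity
  have hker2 : ∀ x : ℕ → ℂ, ∑ i ∈ primSet X Y, 1 / (i.1 : ℝ) ^ 2 *
      (∑ p ∈ P, ∑ q ∈ P, (i.2 (p : ZMod i.1) * x p) *
        (starRingEnd ℂ) (i.2 (q : ZMod i.1) * x q) *
        ((Real.exp (-(κ ^ 2 * (Real.log p - Real.log q) ^ 2 / 4)) : ℝ) : ℂ)).re ≤
      A * ∑ p ∈ P, ‖x p‖ ^ 2 := by
    intro x
    refine (hker x).trans ?_
    refine mul_le_mul_of_nonneg_right ?_ (Finset.sum_nonneg fun _ _ => by positivity)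
    rw [hA]
    have e1 : Cg * W * P.card * Real.exp (-L ^ 2 / 2) ≤ δ * W := by
      calc _ ≤ Cg * W * Real.exp (3 * L) * Real.exp (-L ^ 2 / 2) := by gcongr
        _ = (Cg * (Real.exp (3 * L) * Real.exp (-L ^ 2 / 2))) * W := by ring
        _ ≤ _ := mul_le_mul_of_nonneg_right t2 hW0
    linarith
  -- window lemma
  have hwin1 := hw IX ℕ (primSet X Y) (fun i => 1 / (i.1 : ℝ) ^ 2)
    (fun i p => i.2 (p : ZMod i.1)) P (fun p => Real.log p) (fun p => ((yy p : ℝ) : ℂ)) A κ T u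
    hω hz (fun p _ => Real.log_natCast_nonneg p) (t3.trans hκL) hκd hA0 hker2
  -- the pointwise bound
  obtain ⟨M, hM⟩ : ∃ M : IX → ℝ → ℂ, M = fun i t => ∑ p ∈ P, i.2 (p : ZMod i.1) *
    ((yy p : ℝ) : ℂ) * bt T u t (Real.log p) := ⟨_, rfl⟩
  have hpt : ∀ t : ℝ, primFam X Y (fun q χ => ‖∑' n : ℕ, (χ (n : ZMod q) *
        (ArithmeticFunction.vonMangoldt n : ℂ)) * ((Real.sqrt n : ℂ)⁻¹ * bt T u t (Real.log n))‖ ^ 2) ≤
      (1 + δ) * ∑ i ∈ primSet X Y, 1 / (i.1 : ℝ) ^ 2 * ‖M i t‖ ^ 2 +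
        (1 + 1 / δ) * (CR ^ 2 * W) * wt T t ^ 2 := by
    intro t
    rw [primFam_eq]
    have hwn := wt_nonneg T t hT0.le
    have hk : ∀ i ∈ primSet X Y, 1 / (i.1 : ℝ) ^ 2 * ‖∑' n : ℕ, (i.2 (n : ZMod i.1) *
        (ArithmeticFunction.vonMangoldt n : ℂ)) * ((Real.sqrt n : ℂ)⁻¹ * bt T u t (Real.log n))‖ ^ 2 ≤
        1 / (i.1 : ℝ) ^ 2 * ((1 + δ) * ‖M i t‖ ^ 2 + (1 + 1 / δ) * (CR * wt T t) ^ 2) := by
      intro i hi
      refine mul_le_mul_of_nonneg_left ?_ (by positivity)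
      have h1 := hr (2 * L) u T t (fun n => i.2 (n : ZMod i.1) *
        (ArithmeticFunction.vonMangoldt n : ℂ)) (by linarith) hu0 hu2L hT0.le (fun n => by
          rw [norm_mul, Complex.norm_real, Real.norm_eq_abs,
            abs_of_nonneg ArithmeticFunction.vonMangoldt_nonneg]
          exact mul_le_of_le_one_left ArithmeticFunction.vonMangoldt_nonneg
            (DirichletCharacter.norm_le_one _ _))
      have h2 : ∑ p ∈ PP B (s / 8) (2 * L) u, (i.2 (p : ZMod i.1) *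
          (ArithmeticFunction.vonMangoldt p : ℂ)) *
          ((Real.sqrt p : ℂ)⁻¹ * bt T u t (Real.log p)) = M i t := by
        rw [hM, ← hP]
        refine Finset.sum_congr rfl fun p hp => ?_
        unfold yy
        push_cast
        rw [div_eq_mul_inv]
        ring
      rw [h2] at h1
      have h3 := norm_le_norm_add_norm_sub' (∑' n : ℕ, (i.2 (n : ZMod i.1) *
        (ArithmeticFunction.vonMangoldt n : ℂ)) * ((Real.sqrt n : ℂ)⁻¹ * bt T u t (Real.log n)))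
        (M i t)
      exact (pow_le_pow_left₀ (norm_nonneg _) (h3.trans (add_le_add le_rfl h1)) 2).trans
        (sq_add_le hδ0 _ _)
    refine (Finset.sum_le_sum hk).trans (le_of_eq ?_)
    rw [Finset.mul_sum, ← hWs, Finset.mul_sum, Finset.mul_sum, Finset.sum_mul,
      ← Finset.sum_add_distrib]
    refine Finset.sum_congr rfl fun i _ => ?_
    ring
  -- integrability
  have hTκ : T ≤ Real.exp (L ^ 2) := by
    have : T = Real.exp lT := by rw [hlT, Real.exp_log hT0]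
    rw [this]
    apply Real.exp_le_exp.2
    nlinarith
  have hMi : ∀ i : IX, Integrable (fun t => ‖M i t‖ ^ 2) := by
    intro i
    rw [hM]
    exact main_sum_integrable P (fun p => i.2 (p : ZMod i.1) * ((yy p : ℝ) : ℂ))
      (fun p => Real.log p) t5 hT1 hTκ
  have hi1 : Integrable (fun t => ∑ i ∈ primSet X Y, 1 / (i.1 : ℝ) ^ 2 * ‖M i t‖ ^ 2) :=
    integrable_finsetSum _ fun i _ => (hMi i).const_mul _
  have hi2 : Integrable (fun t => wt T t ^ 2) := (hwt T hT0.le).1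
  have hint : Integrable (fun t => (1 + δ) * ∑ i ∈ primSet X Y, 1 / (i.1 : ℝ) ^ 2 * ‖M i t‖ ^ 2 +
      (1 + 1 / δ) * (CR ^ 2 * W) * wt T t ^ 2) := (hi1.const_mul _).add (hi2.const_mul _)
  refine (integral_mono_of_nonneg (Eventually.of_forall fun t =>
    H385.primFam_nonneg _ _ _ fun q χ => by positivity) hint
    (Eventually.of_forall hpt)).trans ?_
  rw [integral_add (hi1.const_mul _) (hi2.const_mul _), integral_const_mul, integral_const_mul]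
  have s1 : ∑ p ∈ P, ‖((yy p : ℝ) : ℂ)‖ ^ 2 * Real.exp (-(u - Real.log p) ^ 2) ≤
      Pool.Agent.N7.MainC.inner 1 u := by
    have h1 := (Pool.Agent.N7.MainC.inner_summable (c := 1) one_pos u).sum_le_tsum P
      (fun n _ => by positivity)
    unfold Pool.Agent.N7.MainC.inner
    rw [one_pow, one_mul]
    refine le_trans (le_of_eq (Finset.sum_congr rfl fun p _ => ?_)) h1
    rw [Complex.norm_real, Real.norm_eq_abs, sq_abs, yy_sq, one_mul]
  have s2 : ∑ p ∈ P, ‖((yy p : ℝ) : ℂ)‖ ^ 2 * Real.exp (-(u - Real.log p) ^ 2 / 2) ≤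
      C5 * (u + 1) := by
    obtain ⟨h1, h2⟩ := hcr u hu0
    refine le_trans ?_ h2
    refine le_trans (le_of_eq (Finset.sum_congr rfl fun p _ => ?_)) (h1.sum_le_tsum P
      (fun n _ => by positivity))
    rw [Complex.norm_real, Real.norm_eq_abs, sq_abs, yy_sq]
  have s3 : Real.exp (-κ ^ 2 / 16) * (∑ p ∈ P, ‖((yy p : ℝ) : ℂ)‖) ^ 2 ≤ 4 * Real.exp 144 := by
    have h1 : ∑ p ∈ P, ‖((yy p : ℝ) : ℂ)‖ ≤ 2 * Real.exp (3 * L) := by
      have h2 : ∑ p ∈ P, ‖((yy p : ℝ) : ℂ)‖ ≤ ∑ _p ∈ P, (2 : ℝ) :=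
        Finset.sum_le_sum fun p _ => by
          rw [Complex.norm_real, Real.norm_eq_abs]; exact yy_abs p
      rw [Finset.sum_const, nsmul_eq_mul] at h2
      linarith
    have h4 : (∑ p ∈ P, ‖((yy p : ℝ) : ℂ)‖) ^ 2 ≤ (2 * Real.exp (3 * L)) ^ 2 :=
      pow_le_pow_left₀ (Finset.sum_nonneg fun p _ => norm_nonneg _) h1 2
    have h5 : Real.exp (-κ ^ 2 / 16) ≤ Real.exp (-L ^ 2 / 16) := by
      apply Real.exp_le_exp.2
      have : L ^ 2 ≤ κ ^ 2 := pow_le_pow_left₀ hL0.le hκL 2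
      linarith
    calc _ ≤ Real.exp (-L ^ 2 / 16) * (2 * Real.exp (3 * L)) ^ 2 :=
          mul_le_mul h5 h4 (by positivity) (Real.exp_pos _).le
      _ = 4 * Real.exp (-L ^ 2 / 16 + (3 * L + 3 * L)) := by
          rw [Real.exp_add, Real.exp_add]; ring
      _ ≤ _ := by
          refine mul_le_mul_of_nonneg_left (Real.exp_le_exp.2 ?_) (by norm_num)
          nlinarith [sq_nonneg (L - 48)]
  have hwtI := (hwt T hT0.le).2
  have hTp : 0 ≤ T / (2 * Real.pi) := by positivity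
  have hI1n := Pool.Agent.N7.MainC.inner_nonneg 1 u
  have hwin2 : ∫ t : ℝ, ∑ i ∈ primSet X Y, 1 / (i.1 : ℝ) ^ 2 * ‖M i t‖ ^ 2 ≤
      (1 + δ) * A * (T / (2 * Real.pi)) * Pool.Agent.N7.MainC.inner 1 u +
      C2 * A * κ * (C5 * (u + 1)) + C2 * W * T * (4 * Real.exp 144) := by
    rw [hM]
    refine hwin1.trans ?_
    have b1 := mul_le_mul_of_nonneg_left s1 (show 0 ≤ (1 + δ) * A * (T / (2 * Real.pi)) by positivity)
    have b2 := mul_le_mul_of_nonneg_left s2 (show 0 ≤ C2 * A * κ by positivity)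
    have b3 := mul_le_mul_of_nonneg_left s3 (show 0 ≤ C2 * W * T by positivity)
    rw [hWs]
    have b4 : C2 * W * T * Real.exp (-κ ^ 2 / 16) * (∑ p ∈ P, ‖((yy p : ℝ) : ℂ)‖) ^ 2 =
      C2 * W * T * (Real.exp (-κ ^ 2 / 16) * (∑ p ∈ P, ‖((yy p : ℝ) : ℂ)‖) ^ 2) := by ring
    rw [b4]
    linarith
  have hfin := num_ms (δ := δ) (s := s) (Tp := T / (2 * Real.pi))
    (I1 := Pool.Agent.N7.MainC.inner 1 u) (C2 := C2) (C5 := C5) (Cw := 4 * Real.exp 144) (L := L)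
    (u := u) (T := T) (W := W) (CR := CR) (C3 := C3) (κ := κ)
    hδ0 hδ hs1 hTp hI1n hC2 hC5 t5 hu0 hu2L hκ hT1 hW0 (by positivity) hCR hC3
  rw [← hA] at hfin
  refine le_trans ?_ hfin
  refine add_le_add (mul_le_mul_of_nonneg_left hwin2 (by linarith)) ?_
  exact mul_le_mul_of_nonneg_left hwtI (by positivity)

end Pool.Agent.N880.HD
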