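import Pool.Agent.N880.HD.Stm2
import Pool.Agent.H385R2.PrimLS
import Pool.Agent.H385R2.PrimMass

set_option autoImplicit false

open Complex Filter Topology MeasureTheory Set

namespace Pool.Agent.N880.HD

open H385 (c0 primFam bt wt Rw WW)

lemma exp_le_one_add {ε1 x : ℝ} (h0 : 0 < ε1) (h1 : ε1 ≤ 1) (hx : x ≤ ε1 / 2) :
    Real.exp x ≤ 1 + ε1 := by
  refine (Real.exp_le_exp.mpr hx).trans ?_
  have h4 := Real.exp_bound_div_one_sub_of_interval (x := ε1 / 2) (by positivity) (by linarith)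
  refine h4.trans ?_
  rw [div_le_iff₀ (by linarith)]
  nlinarith

theorem prim_main (hblk : S_block) (hcop : S_cop) : S_prim := by
  intro ε hε hε1
  set e : ℝ := ε / 20 with he
  have he0 : 0 < e := by positivity
  have he1 : e ≤ 1 := by rw [he]; linarith
  have he2 : e ≤ 1 / 20 := by rw [he]; linarith
  obtain ⟨P, hPsf, hPe⟩ := H385.PrimLS.euler_exists e he0
  have hP1 : 1 ≤ P := Nat.pos_of_ne_zero hPsf.ne_zero
  obtain ⟨C, hC, hb⟩ := hblk P hPsf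
  obtain ⟨C4, hC4, hmass⟩ := H385.prim_mass
  have hc0 : 0 < c0 := by unfold c0; positivity
  set B : ℕ := P + ⌈8 / (e ^ 2 * c0 ^ 2)⌉₊ + 1 with hB
  have hBP : P ≤ B := by omega
  have hB1 : 1 ≤ B := by omega
  have hBr : 8 / (e ^ 2 * c0 ^ 2) ≤ (B : ℝ) := by
    have := Nat.le_ceil (8 / (e ^ 2 * c0 ^ 2))
    have h2 : ((⌈8 / (e ^ 2 * c0 ^ 2)⌉₊ : ℕ) : ℝ) ≤ (B : ℝ) := by exact_mod_cast (by omega)
    linarith
  have hB0 : (0 : ℝ) < B := by exact_mod_cast hB1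
  set Kl : ℝ := 1 + Real.log P + (3 * C4 + C) / (e * c0 ^ 2) with hKl
  have hlogP : 0 ≤ Real.log P := Real.log_nonneg (by exact_mod_cast hP1)
  have hKl0 : 0 ≤ (3 * C4 + C) / (e * c0 ^ 2) := by positivity
  have hKl1 : 1 ≤ Kl := by rw [hKl]; linarith
  refine ⟨B, Real.exp Kl, e / 8, hB1, Real.one_le_exp (by linarith), by positivity, ?_⟩
  intro X Y M H b hX hKX hH hsupp hM
  have hXpos : (0 : ℝ) < X := by exact_mod_cast hX
  have hXYr : (X : ℝ) ≤ Y := by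
    have : (1 : ℝ) * X ≤ Real.exp Kl * X :=
      mul_le_mul_of_nonneg_right (Real.one_le_exp (by linarith)) hXpos.le
    linarith
  have hXY : X ≤ Y := by exact_mod_cast hXYr
  have hYpos : (0 : ℝ) < Y := by linarith
  set 𝓛 : ℝ := Real.log ((Y : ℝ) / X) with h𝓛
  have h𝓛K : Kl ≤ 𝓛 := by
    rw [h𝓛, Real.le_log_iff_exp_le (by positivity), le_div_iff₀ hXpos]
    exact hKX
  have h𝓛0 : 0 < 𝓛 := by linarith
  have hWlow := (abs_le.mp (hmass X Y hX hXY)).1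
  have hWlow' : c0 ^ 2 * 𝓛 - C4 ≤ WW X Y := by
    have : primFam X Y (fun _ _ => 1) = WW X Y := rfl
    rw [this] at hWlow; linarith
  have hW0 : 0 ≤ WW X Y := H385.primFam_nonneg _ _ _ (fun _ _ => zero_le_one)
  set S : ℝ := ∑ n ∈ Finset.Icc 1 (M + H), ‖b n‖ ^ 2 with hS
  have hS0 : 0 ≤ S := Finset.sum_nonneg fun _ _ => by positivity
  have h1 := hb X Y M H b hX hXY (fun n hn => by
    by_contra hbn
    obtain ⟨hp, hBn⟩ := hsupp n hbn
    apply hn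
    rw [hp.coprime_iff_not_dvd]
    intro hd
    have := Nat.le_of_dvd (by omega) hd
    omega) hM e he0 he1
  have h2 := hcop B X (P * Y) (M + H) (fun n => ‖b n‖) hB1 hX
    (hXY.trans (Nat.le_mul_of_pos_left Y hP1)) (fun n => norm_nonneg _)
    (fun n hn => hsupp n (norm_ne_zero_iff.1 hn))
  have hlogPY : Real.log (((P * Y : ℕ) : ℝ) / X) = Real.log P + 𝓛 := by
    rw [h𝓛, ← Real.log_mul (by exact_mod_cast (by omega : P ≠ 0)) (by positivity)]
    push_cast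
    congr 1
    ring
  rw [hlogPY] at h2
  have h3q : 3 * C4 + C ≤ e * c0 ^ 2 * 𝓛 := by
    have : (3 * C4 + C) / (e * c0 ^ 2) ≤ 𝓛 := by linarith
    rw [div_le_iff₀ (by positivity)] at this; linarith
  -- first part
  have hexp : Real.exp (Real.pi * H / (X : ℝ) ^ 2) ≤ 1 + e := by
    refine exp_le_one_add he0 he1 ?_
    rw [div_le_iff₀ (by positivity)]
    have h3 : Real.pi * H ≤ 4 * (e / 8 * (X : ℝ) ^ 2) :=
      mul_le_mul Real.pi_lt_four.le hH (by positivity) (by norm_num)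
    linarith
  have hD0 : 0 ≤ c0 * (∏ p ∈ P.primeFactors, (1 - 1 / (p : ℝ) ^ 2)) * 𝓛 := by
    have : 0 ≤ ∏ p ∈ P.primeFactors, (1 - 1 / (p : ℝ) ^ 2) := by
      refine Finset.prod_nonneg fun p hp => ?_
      have hp1 : (1 : ℝ) ≤ p := by exact_mod_cast (Nat.prime_of_mem_primeFactors hp).one_le
      have : 1 / (p : ℝ) ^ 2 ≤ 1 := by
        rw [div_le_one (by positivity)]
        nlinarith
      linarith
    positivity
  have hD1W : (1 + e) * Real.exp (Real.pi * H / (X : ℝ) ^ 2) *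
        (c0 * (∏ p ∈ P.primeFactors, (1 - 1 / (p : ℝ) ^ 2)) * 𝓛 + C) ≤ (1 + 11 * e) * WW X Y := by
    have h0 : c0 * (∏ p ∈ P.primeFactors, (1 - 1 / (p : ℝ) ^ 2)) * 𝓛 ≤
        c0 ^ 2 * (1 + e) * 𝓛 := by
      have := mul_le_mul_of_nonneg_left hPe hc0.le
      have := mul_le_mul_of_nonneg_right this h𝓛0.le
      linarith [show c0 * (c0 * (1 + e)) * 𝓛 = c0 ^ 2 * (1 + e) * 𝓛 by ring]
    have h1 : c0 * (∏ p ∈ P.primeFactors, (1 - 1 / (p : ℝ) ^ 2)) * 𝓛 + C ≤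
        (1 + 2 * e) * WW X Y := by
      have h3 : (1 + 2 * e) * (c0 ^ 2 * 𝓛 - C4) ≤ (1 + 2 * e) * WW X Y :=
        mul_le_mul_of_nonneg_left hWlow' (by linarith)
      have h4 : (1 + 2 * e) * (c0 ^ 2 * 𝓛 - C4) = c0 ^ 2 * (1 + e) * 𝓛 + e * c0 ^ 2 * 𝓛 -
        (1 + 2 * e) * C4 := by ring
      have h5 : (1 + 2 * e) * C4 ≤ 3 * C4 := mul_le_mul_of_nonneg_right (by linarith) hC4.le
      linarith
    have h6 : (1 + e) * Real.exp (Real.pi * H / (X : ℝ) ^ 2) *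
        (c0 * (∏ p ∈ P.primeFactors, (1 - 1 / (p : ℝ) ^ 2)) * 𝓛 + C) ≤
        (1 + e) * (1 + e) * ((1 + 2 * e) * WW X Y) := by
      refine mul_le_mul ?_ h1 (by positivity) (by positivity)
      exact mul_le_mul_of_nonneg_left hexp (by linarith)
    refine h6.trans ?_
    have h7 : (1 + e) * (1 + e) * (1 + 2 * e) ≤ 1 + 11 * e := by
      have g1 : e ^ 2 ≤ e := pow_le_of_le_one he0.le he1 two_ne_zero
      have g2 : e ^ 3 ≤ e := pow_le_of_le_one he0.le he1 three_ne_zero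
      have g3 : (1 + e) * (1 + e) * (1 + 2 * e) = 1 + 4 * e + 5 * e ^ 2 + 2 * e ^ 3 := by ring
      rw [g3]; linarith
    calc _ = ((1 + e) * (1 + e) * (1 + 2 * e)) * WW X Y := by ring
      _ ≤ _ := mul_le_mul_of_nonneg_right h7 hW0
  -- second part
  have hpart2 : (2 / e) * ((2 / (B : ℝ)) * (1 + (Real.log P + 𝓛)) * S) ≤ (2 * e) * WW X Y * S := by
    have g1 : 1 + (Real.log P + 𝓛) ≤ 2 * 𝓛 := by linarith
    have g2 : 2 / (B : ℝ) ≤ e ^ 2 * c0 ^ 2 / 4 := by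
      rw [div_le_iff₀ hB0]
      rw [div_le_iff₀ (by positivity)] at hBr
      linarith
    have g3 : (2 / (B : ℝ)) * (1 + (Real.log P + 𝓛)) ≤ e ^ 2 * c0 ^ 2 / 4 * (2 * 𝓛) := by
      refine mul_le_mul g2 g1 (by positivity) (by positivity)
    have g4 : (2 / e) * ((2 / (B : ℝ)) * (1 + (Real.log P + 𝓛))) ≤ e * (c0 ^ 2 * 𝓛) := by
      calc _ ≤ (2 / e) * (e ^ 2 * c0 ^ 2 / 4 * (2 * 𝓛)) := mul_le_mul_of_nonneg_left g3 (by positivity)
        _ = _ := by field_simp; ring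
    have g5 : c0 ^ 2 * 𝓛 ≤ 2 * WW X Y := by
      have k1 : C4 ≤ e * (c0 ^ 2 * 𝓛) := by linarith
      have k2 : e * (c0 ^ 2 * 𝓛) ≤ 1 / 20 * (c0 ^ 2 * 𝓛) :=
        mul_le_mul_of_nonneg_right he2 (by positivity)
      linarith
    have g6 : e * (c0 ^ 2 * 𝓛) ≤ 2 * e * WW X Y := by
      have := mul_le_mul_of_nonneg_left g5 he0.le
      linarith
    calc _ = ((2 / e) * ((2 / (B : ℝ)) * (1 + (Real.log P + 𝓛)))) * S := by ring
      _ ≤ _ := mul_le_mul_of_nonneg_right (g4.trans g6) hS0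
  have hfin : (1 + 11 * e) * WW X Y * S + (2 * e) * WW X Y * S ≤ (1 + ε) * WW X Y * S := by
    have : 0 ≤ WW X Y * S := mul_nonneg hW0 hS0
    have h9 : (1 + 11 * e) * WW X Y * S + (2 * e) * WW X Y * S = (1 + 13 * e) * (WW X Y * S) := by ring
    rw [h9, mul_assoc]
    refine mul_le_mul_of_nonneg_right ?_ this
    rw [he]; linarith
  refine h1.trans (le_trans (add_le_add ?_ ?_) hfin)
  · exact mul_le_mul_of_nonneg_right hD1W hS0
  · exact le_trans (mul_le_mul_of_nonneg_left h2 (by positivity)) hpart2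

end Pool.Agent.N880.HD
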