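import Pool.Agent.N880.HD.Core
import Pool.Agent.N880.HD.Ms
import Pool.Agent.N880.HD.Prm
import Pool.Agent.N880.HD.Blk
import Pool.Agent.N880.HD.Cop
import Pool.Agent.N880.HD.Gau
import Pool.Agent.N880.HD.WinC
import Pool.Agent.N880.HD.Const
import Pool.Agent.N880.QF.Rest
import Pool.Agent.H370R2.Expl1

/-! # Final form -/

set_option autoImplicit false

open Complex Filter Topology MeasureTheory Set

namespace Pool.Agent.N880.HD

open H385 (c0 primFam bt wt Rw WW IX primSet primFam_eq mem_primSet LF LF_eq Rw_nonneg)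
open H370 (NN Nd Ns)

/-- the function of Montgomery and Taylor -/
noncomputable def cH (h : ℝ) : ℝ := h / 2 + Real.cot (h / Real.sqrt 2) / Real.sqrt 2

lemma cH_anti {a b : ℝ} (ha : 0 < a) (hab : a ≤ b) (hb : b ≤ 2) : cH b ≤ cH a := by
  have hs2 : Real.sqrt 2 ^ 2 = 2 := Real.sq_sqrt (by norm_num)
  have hs0 : 0 < Real.sqrt 2 := Real.sqrt_pos.mpr (by norm_num)
  have hs1 : 1.4 ≤ Real.sqrt 2 := by
    apply Real.le_sqrt_of_sq_le; norm_num
  have hpi := Real.pi_gt_three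
  -- `x + cot x` is antitone on `(0, π)`
  have hanti : AntitoneOn (fun x : ℝ => x + Real.cos x / Real.sin x) (Set.Ioo 0 Real.pi) := by
    apply antitoneOn_of_deriv_nonpos (convex_Ioo 0 Real.pi)
    · refine ContinuousOn.add continuousOn_id (ContinuousOn.div Real.continuous_cos.continuousOn
        Real.continuous_sin.continuousOn fun x hx => (Real.sin_pos_of_mem_Ioo hx).ne')
    · rw [interior_Ioo]
      intro x hx
      have hs := (Real.sin_pos_of_mem_Ioo hx).ne'
      exact ((hasDerivAt_id x).add ((Real.hasDerivAt_cos x).div (Real.hasDerivAt_sin x)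
        hs)).differentiableAt.differentiableWithinAt
    · rw [interior_Ioo]
      intro x hx
      have hs := Real.sin_pos_of_mem_Ioo hx
      have hd := (hasDerivAt_id x).add ((Real.hasDerivAt_cos x).div (Real.hasDerivAt_sin x) hs.ne')
      have hd' : HasDerivAt (fun x : ℝ => x + Real.cos x / Real.sin x)
          (1 + (-Real.sin x * Real.sin x - Real.cos x * Real.cos x) / Real.sin x ^ 2) x := hd
      rw [hd'.deriv]
      have h1 : (-Real.sin x * Real.sin x - Real.cos x * Real.cos x) / Real.sin x ^ 2 =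
          -(1 / Real.sin x ^ 2) := by
        have := Real.sin_sq_add_cos_sq x
        rw [← neg_div]
        congr 1
        linarith
      rw [h1]
      have h2 : 1 ≤ 1 / Real.sin x ^ 2 := by
        rw [le_div_iff₀ (by positivity), one_mul]
        nlinarith [Real.sin_sq_add_cos_sq x, sq_nonneg (Real.cos x)]
      linarith
  have hxa : a / Real.sqrt 2 ∈ Set.Ioo 0 Real.pi := by
    refine ⟨by positivity, ?_⟩
    rw [div_lt_iff₀ hs0]; nlinarith
  have hxb : b / Real.sqrt 2 ∈ Set.Ioo 0 Real.pi := by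
    refine ⟨div_pos (by linarith) hs0, ?_⟩
    rw [div_lt_iff₀ hs0]; nlinarith
  have h := hanti hxa hxb (div_le_div_of_nonneg_right hab hs0.le)
  simp only at h
  have e : ∀ x : ℝ, cH x = (x / Real.sqrt 2 + Real.cos (x / Real.sqrt 2) /
      Real.sin (x / Real.sqrt 2)) / Real.sqrt 2 := by
    intro x
    unfold cH
    rw [Real.cot_eq_cos_div_sin, add_div, div_div x, ← sq, hs2]
  rw [e, e]
  exact div_le_div_of_nonneg_right h hs0.le

lemma cH_le {h : ℝ} (h1 : 1 ≤ h) (h2 : h ≤ 2) : cH h ≤ 1.327503 := by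
  refine (cH_anti one_pos h1 h2).trans ?_
  have := H370.Expl.cMTinv_num
  unfold H370.cMTinv at this
  exact this

lemma primFam_lin (X Y : ℕ) (a b : ℝ) (f g : (q : ℕ) → DirichletCharacter ℂ q → ℝ) :
    primFam X Y (fun q χ => a * f q χ - b * g q χ) = a * primFam X Y f - b * primFam X Y g := by
  rw [primFam_eq, primFam_eq, primFam_eq, Finset.mul_sum, Finset.mul_sum,
    ← Finset.sum_sub_distrib]
  exact Finset.sum_congr rfl fun p _ => by ring

theorem fin_main (τ ε : ℝ) (hτ : 0 ≤ τ) (hε : 0 < ε) :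
    ∃ K η X0 : ℝ, 1 ≤ K ∧ 0 < η ∧ 1 ≤ X0 ∧
    ∀ (X Y : ℕ) (T : ℝ), X0 ≤ X → K * X ≤ Y → (Y : ℝ) ≤ (X : ℝ) ^ (1 + η) →
      4 * (Real.log X) ^ 2 ≤ T → T ≤ (X : ℝ) ^ τ →
      (2 - cH ((2 + τ) / (1 + τ)) - ε) * primFam X Y (fun q χ => (NN (LF q χ) T (2 * T) : ℝ)) ≤
        primFam X Y (fun q χ => (Ns (LF q χ) T (2 * T) : ℝ)) ∧
      (3 - cH ((2 + τ) / (1 + τ)) - ε) / 2 *
          primFam X Y (fun q χ => (NN (LF q χ) T (2 * T) : ℝ)) ≤
        primFam X Y (fun q χ => (Nd (LF q χ) T (2 * T) : ℝ)) := by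
  have hh0 : 0 < (2 + τ) / (1 + τ) := by positivity
  have hh2 : (2 + τ) / (1 + τ) ≤ 2 := by
    rw [div_le_iff₀ (by linarith)]; linarith
  obtain ⟨g1, g2, g3⟩ := const_main ((2 + τ) / (1 + τ)) hh0 hh2
  have hms := ms_main (prim_main block_main cop_main) gauss_main winC_main
    Pool.Agent.N880.QF.Rest.rest_main
  obtain ⟨K, η, X0, hK, hη, hX0, H⟩ := core_main hms τ (Real.sqrt 2 * ((2 + τ) / (1 + τ)))
    (cH ((2 + τ) / (1 + τ)) + ε) hτ g1 g2 (by
      have : Rw (Real.sqrt 2 * ((2 + τ) / (1 + τ))) 0 / ((2 + τ) / (1 + τ)) +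
          2 * ((2 + τ) / (1 + τ)) *
            (∫ α in (0 : ℝ)..1, α * Rw (Real.sqrt 2 * ((2 + τ) / (1 + τ))) α) =
          cH ((2 + τ) / (1 + τ)) := by
        unfold cH
        rw [← g3]
        ring
      rw [this]
      linarith)
  refine ⟨K, η, X0, hK, hη, hX0, ?_⟩
  intro X Y T a1 a2 a3 a4 a5
  obtain ⟨k1, k2⟩ := H X Y T a1 a2 a3 a4 a5
  have e1 := primFam_lin X Y 2 1 (fun q χ => (NN (LF q χ) T (2 * T) : ℝ))
    (fun q χ => (Ns (LF q χ) T (2 * T) : ℝ))
  have e2 := primFam_lin X Y 3 2 (fun q χ => (NN (LF q χ) T (2 * T) : ℝ))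
    (fun q χ => (Nd (LF q χ) T (2 * T) : ℝ))
  simp only [one_mul] at e1
  rw [e1] at k1
  rw [e2] at k2
  constructor
  · linarith
  · linarith

end Pool.Agent.N880.HD
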