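import Pool.Agent.H385R2.Flat
import Pool.Agent.H385R2.PrimSet
import Pool.Agent.H385R2.FinA0

/-!
Project HD (helper880): zeros of the L-functions of all primitive Dirichlet characters with
conductor in a logarithmically long window, heights up to an arbitrary power of the conductor.
Statements of the leaves.
-/

set_option autoImplicit false

open Complex Filter Topology MeasureTheory Set

namespace Pool.Agent.N880.HD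

open H385 (c0 primFam bt wt Rw WW)

/-- the large sieve inequality with sharp constant for coefficients in a block `(M, M + H]` -/
def S_block : Prop := ∀ P : ℕ, Squarefree P → ∃ C : ℝ, 0 < C ∧
  ∀ (X Y M H : ℕ) (b : ℕ → ℂ), 1 ≤ X → X ≤ Y → (∀ n, ¬ Nat.Coprime n P → b n = 0) →
    (∀ n, n ≤ M → b n = 0) → ∀ ε : ℝ, 0 < ε → ε ≤ 1 →
  primFam X Y (fun q χ => ‖∑ n ∈ Finset.Icc 1 (M + H), b n * χ (n : ZMod q)‖ ^ 2) ≤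
    (1 + ε) * Real.exp (Real.pi * H / (X : ℝ) ^ 2) *
      (c0 * (∏ p ∈ P.primeFactors, (1 - 1 / (p : ℝ) ^ 2)) * Real.log ((Y : ℝ) / X) + C) *
      ∑ n ∈ Finset.Icc 1 (M + H), ‖b n‖ ^ 2
    + (2 / ε) * ∑ q ∈ Finset.Ioc X (P * Y), (1 / (q : ℝ)) *
      (∑ n ∈ (Finset.Icc 1 (M + H)).filter (fun n => ¬ Nat.Coprime n q), ‖b n‖) ^ 2

/-- the terms not coprime to the modulus, for coefficients supported on primes `> B` -/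
def S_cop : Prop := ∀ (B X Z N : ℕ) (b : ℕ → ℝ), 1 ≤ B → 1 ≤ X → X ≤ Z → (∀ n, 0 ≤ b n) →
  (∀ n, b n ≠ 0 → n.Prime ∧ B < n) →
  ∑ q ∈ Finset.Ioc X Z, (1 / (q : ℝ)) *
    (∑ n ∈ (Finset.Icc 1 N).filter (fun n => ¬ Nat.Coprime n q), b n) ^ 2 ≤
  (2 / (B : ℝ)) * (1 + Real.log ((Z : ℝ) / X)) * ∑ n ∈ Finset.Icc 1 N, b n ^ 2

/-- the window lemma: complex coefficients, windows of every length `κ` from `κ0` to `d0 * T` -/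
def S_winC : Prop := ∀ δ : ℝ, 0 < δ → ∃ C κ0 d0 : ℝ, 0 < C ∧ 1 ≤ κ0 ∧ 0 < d0 ∧
  ∀ (J ι : Type) (I : Finset J) (ω : J → ℝ) (z : J → ι → ℂ) (P : Finset ι) (ℓ : ι → ℝ)
    (y : ι → ℂ) (A κ T u : ℝ),
    (∀ i ∈ I, 0 ≤ ω i) → (∀ i p, ‖z i p‖ ≤ 1) → (∀ p ∈ P, 0 ≤ ℓ p) → κ0 ≤ κ → κ ≤ d0 * T →
    0 ≤ A →
    (∀ x : ι → ℂ, ∑ i ∈ I, ω i * (∑ p ∈ P, ∑ q ∈ P, (z i p * x p) *
        (starRingEnd ℂ) (z i q * x q) *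
        ((Real.exp (-(κ ^ 2 * (ℓ p - ℓ q) ^ 2 / 4)) : ℝ) : ℂ)).re ≤ A * ∑ p ∈ P, ‖x p‖ ^ 2) →
    ∫ t : ℝ, ∑ i ∈ I, ω i * ‖∑ p ∈ P, z i p * y p * bt T u t (ℓ p)‖ ^ 2 ≤
      (1 + δ) * A * (T / (2 * Real.pi)) *
          ∑ p ∈ P, ‖y p‖ ^ 2 * Real.exp (-(u - ℓ p) ^ 2) +
        C * A * κ * ∑ p ∈ P, ‖y p‖ ^ 2 * Real.exp (-(u - ℓ p) ^ 2 / 2) +
        C * (∑ i ∈ I, ω i) * T * Real.exp (-κ ^ 2 / 16) * (∑ p ∈ P, ‖y p‖) ^ 2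

/-- from blocks to the Gaussian kernel -/
def S_gauss : Prop := ∀ δ : ℝ, 0 < δ → ∃ C : ℝ, 0 < C ∧
  ∀ (J ι : Type) (I : Finset J) (ω : J → ℝ) (z : J → ι → ℂ) (P : Finset ι) (ℓ : ι → ℝ)
    (A κ ρ : ℝ),
    (∀ i ∈ I, 0 ≤ ω i) → (∀ i p, ‖z i p‖ ≤ 1) → 0 < κ → 0 < ρ → 0 ≤ A →
    (∀ (v : ℝ) (x : ι → ℂ), (∀ p, ρ < |ℓ p - v| → x p = 0) →
      ∑ i ∈ I, ω i * ‖∑ p ∈ P, z i p * x p‖ ^ 2 ≤ A * ∑ p ∈ P, ‖x p‖ ^ 2) →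
    ∀ x : ι → ℂ, ∑ i ∈ I, ω i * (∑ p ∈ P, ∑ q ∈ P, (z i p * x p) *
        (starRingEnd ℂ) (z i q * x q) *
        ((Real.exp (-(κ ^ 2 * (ℓ p - ℓ q) ^ 2 / 4)) : ℝ) : ℂ)).re ≤
      ((1 + δ) * A + C * (∑ i ∈ I, ω i) * P.card * Real.exp (-(κ * ρ) ^ 2 / 2)) *
        ∑ p ∈ P, ‖x p‖ ^ 2

/-- the sharp constant for `h ≤ 2` -/
def S_const : Prop := ∀ h : ℝ, 0 < h → h ≤ 2 →
  0 < Real.sqrt 2 * h ∧ Real.sqrt 2 * h < Real.pi ∧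
  1 / h * Rw (Real.sqrt 2 * h) 0 + 2 * h * ∫ α in (0 : ℝ)..1, α * Rw (Real.sqrt 2 * h) α =
    h / 2 + Real.cot (h / Real.sqrt 2) / Real.sqrt 2

end Pool.Agent.N880.HD
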