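import Pool.Agent.N880.HD.Stm
import Pool.Agent.N7.MainC

/-! Further statements of project HD. -/

set_option autoImplicit false

open Complex Filter Topology MeasureTheory Set

namespace Pool.Agent.N880.HD

open H385 (c0 primFam bt wt Rw WW)

/-- large sieve over all primitive characters for coefficients in a block, supported on
primes `> B` -/
def S_prim : Prop := ∀ ε : ℝ, 0 < ε → ε ≤ 1 → ∃ (B : ℕ) (K e0 : ℝ), 1 ≤ B ∧ 1 ≤ K ∧ 0 < e0 ∧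
  ∀ (X Y M H : ℕ) (b : ℕ → ℂ), 1 ≤ X → K * X ≤ Y → (H : ℝ) ≤ e0 * (X : ℝ) ^ 2 →
    (∀ n, b n ≠ 0 → n.Prime ∧ B < n) → (∀ n, n ≤ M → b n = 0) →
    primFam X Y (fun q χ => ‖∑ n ∈ Finset.Icc 1 (M + H), b n * χ (n : ZMod q)‖ ^ 2) ≤
      (1 + ε) * WW X Y * ∑ n ∈ Finset.Icc 1 (M + H), ‖b n‖ ^ 2

/-- the mean square over the family; `L = log (X T)` -/
def S_ms : Prop := ∀ (τ s : ℝ), 0 ≤ τ → 0 < s → s ≤ 1 / 2 → ∃ K C X0 : ℝ, 1 ≤ K ∧ 0 < C ∧ 3 ≤ X0 ∧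
  ∀ (X Y : ℕ) (T u : ℝ), X0 ≤ X → K * X ≤ Y → (Y : ℝ) ≤ (X : ℝ) ^ 2 →
    1 ≤ T → (Real.log (X * T)) ^ 2 ≤ T → T ≤ (X : ℝ) ^ τ → 0 ≤ u →
    u ≤ (1 - s) * ((2 + τ) / (1 + τ)) * Real.log (X * T) →
    ∫ t : ℝ, primFam X Y (fun q χ => ‖∑' n : ℕ, (χ (n : ZMod q) *
        (ArithmeticFunction.vonMangoldt n : ℂ)) *
        ((Real.sqrt n : ℂ)⁻¹ * bt T u t (Real.log n))‖ ^ 2) ≤
      (1 + s) * WW X Y * (T / (2 * Real.pi)) * Pool.Agent.N7.MainC.inner 1 u +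
        C * WW X Y * T

end Pool.Agent.N880.HD
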